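import Mathlib

-- merged part: Pool.Agent.Work.MP_3e8641_co.Config
section
-- merged part: Pool.Agent.Work.MP_3e8641_co.Generic
section
namespace Pool.Agent.Work.MP_3e8641_co

open Finset

/-- Products outside `U` are not monochromatic. -/
def Clean (N : ℕ) (c : ℕ → Fin 3) (U : Finset ℕ) : Prop :=
  ∀ x y z : ℕ, ∀ k : Fin 3, 2 ≤ x → 2 ≤ y → x * y = z → z ≤ N → z ∉ U → c x = k → c y = k → c z ≠ k

/-- Generic elements: for each short list of multipliers there is `y` with property `P` all of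
whose multiples by the list are outside `U` and avoid the colour `R`. -/
def Gen (N W : ℕ) (c : ℕ → Fin 3) (U : Finset ℕ) (R : Fin 3) (P : ℕ → Prop) (r : ℕ) : Prop :=
  ∀ Λ : Finset ℕ, Λ.card ≤ r → (∀ α ∈ Λ, 1 ≤ α ∧ α * W ≤ N) →
    ∃ y, 2 ≤ y ∧ y ≤ W ∧ P y ∧ ∀ α ∈ Λ, α * y ∉ U ∧ c (α * y) ≠ R

lemma exists_avoid (U : Finset ℕ) (Λ : Finset ℕ) (hΛ : ∀ α ∈ Λ, 1 ≤ α) (Y : ℕ)
    (hY : Λ.card * U.card < Y) : ∃ y, Y ≤ y ∧ y < 2 * Y ∧ ∀ α ∈ Λ, α * y ∉ U := by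
  by_contra hcon
  push Not at hcon
  have hsub : Ico Y (2 * Y) ⊆ Λ.biUnion fun α => U.image (fun n => n / α) := by
    intro y hy
    rw [mem_Ico] at hy
    obtain ⟨α, hα, hU⟩ := hcon y hy.1 hy.2
    simp only [mem_biUnion, mem_image]
    exact ⟨α, hα, α * y, hU, Nat.mul_div_cancel_left y (hΛ α hα)⟩
  have h1 := card_le_card hsub
  have h2 : (Λ.biUnion fun α => U.image (fun n => n / α)).card ≤ Λ.card * U.card :=
    card_biUnion_le_card_mul _ _ _ fun α _ => card_image_le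
  rw [Nat.card_Ico] at h1
  omega

lemma exists_red (N W Y : ℕ) (c : ℕ → Fin 3) (U : Finset ℕ) (hc : Clean N c U) (hY2 : 2 ≤ Y)
    (hY : 27 * 730 * U.card < Y) (hW : 2 ^ 730 * Y ≤ W) :
    ∃ R : Fin 3, Gen N W c U R (fun _ => True) 9 := by
  by_contra hcon
  simp only [Gen, not_exists, not_forall] at hcon
  choose Λ hcard hsize hno using hcon
  have hno' : ∀ k y, 2 ≤ y → y ≤ W → ∃ α ∈ Λ k, α * y ∈ U ∨ c (α * y) = k := by
    intro k y h1 h2
    by_contra h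
    push Not at h
    exact hno k y ⟨h1, h2, trivial, h⟩
  let Λ' : Finset ℕ := ((univ.biUnion Λ) ×ˢ range 730).image fun p => p.1 * 2 ^ p.2
  have hc1 : (univ.biUnion Λ).card ≤ 27 := by
    refine (card_biUnion_le_card_mul _ _ 9 fun k _ => hcard k).trans ?_
    simp
  have hc2 : Λ'.card ≤ 27 * 730 := by
    refine card_image_le.trans ?_
    rw [card_product, card_range]
    exact Nat.mul_le_mul_right _ hc1
  obtain ⟨y, hy1, hy2, hy3⟩ := exists_avoid U Λ' (by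
    intro α hα
    simp only [Λ', mem_image, mem_product, mem_biUnion, mem_univ, true_and] at hα
    obtain ⟨⟨β, e⟩, ⟨⟨k, hk⟩, -⟩, rfl⟩ := hα
    exact Nat.mul_pos (hsize k β hk).1 (by positivity)) Y
    (lt_of_le_of_lt (Nat.mul_le_mul_right _ hc2) hY)
  have hle : ∀ e, e < 730 → 2 ^ e * y ≤ W := by
    intro e he
    refine le_trans ?_ hW
    have : 2 ^ e ≤ 2 ^ 729 := Nat.pow_le_pow_right (by norm_num) (by omega)
    calc 2 ^ e * y ≤ 2 ^ 729 * (2 * Y) := Nat.mul_le_mul this hy2.le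
      _ = 2 ^ 730 * Y := by rw [← mul_assoc, ← pow_succ]
  have hge : ∀ e, 2 ≤ 2 ^ e * y := by
    intro e
    have : 1 ≤ 2 ^ e := Nat.one_le_two_pow
    nlinarith only [hY2, hy1, this]
  have hclean : ∀ k, ∀ α ∈ Λ k, ∀ e, e < 730 → α * (2 ^ e * y) ∉ U := by
    intro k α hα e he
    rw [← mul_assoc]
    refine hy3 _ ?_
    simp only [Λ', mem_image, mem_product, mem_biUnion, mem_univ, true_and, mem_range]
    exact ⟨(α, e), ⟨⟨k, hα⟩, he⟩, rfl⟩
  have hex : ∀ e : Fin 730, ∀ k, ∃ α ∈ Λ k, c (α * (2 ^ (e : ℕ) * y)) = k := by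
    intro e k
    obtain ⟨α, hα, h⟩ := hno' k _ (hge e) (hle e e.2)
    exact ⟨α, hα, h.resolve_left (hclean k α hα e e.2)⟩
  choose f hf1 hf2 using hex
  have hmaps : ∀ e ∈ (univ : Finset (Fin 730)), f e ∈ Fintype.piFinset Λ := by
    intro e _
    exact Fintype.mem_piFinset.mpr (hf1 e)
  have hcardpi : (Fintype.piFinset Λ).card < (univ : Finset (Fin 730)).card := by
    rw [Fintype.card_piFinset]
    have : ∏ k, (Λ k).card ≤ 9 ^ 3 := by
      have := prod_le_pow_card univ (fun k => (Λ k).card) 9 fun k _ => hcard k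
      simpa using this
    simp only [card_univ, Fintype.card_fin]
    omega
  have key : ∀ e e' : Fin 730, e < e' → f e = f e' → False := by
    intro e e' hlt heq
    obtain ⟨d, hd⟩ : ∃ d, (e' : ℕ) = e + d + 1 := ⟨e' - e - 1, by have : (e : ℕ) < e' := hlt; omega⟩
    have h1 := hf2 e (c (2 ^ (d + 1)))
    have h2 := hf2 e' (c (2 ^ (d + 1)))
    have hα := hf1 e' (c (2 ^ (d + 1)))
    rw [heq] at h1
    set α := f e' (c (2 ^ (d + 1))) with hαdef
    have hα1 := (hsize _ α hα).1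
    refine hc (2 ^ (d + 1)) (α * (2 ^ (e : ℕ) * y)) (α * (2 ^ (e' : ℕ) * y)) _ ?_ ?_ ?_ ?_
      (hclean _ α hα e' e'.2) rfl h1 h2
    · have : 1 ≤ 2 ^ d := Nat.one_le_two_pow
      rw [pow_succ]; omega
    · have := hge e
      nlinarith only [hα1, this]
    · rw [hd]; ring
    · exact (Nat.mul_le_mul_left _ (hle e' e'.2)).trans (hsize _ α hα).2
  obtain ⟨e, -, e', -, hne, heq⟩ := exists_ne_map_eq_of_card_lt_of_maps_to hcardpi hmaps
  rcases lt_or_gt_of_ne hne with h | h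
  · exact key e e' h heq
  · exact key e' e h heq.symm

lemma exists_A (N W : ℕ) (c : ℕ → Fin 3) (U : Finset ℕ) (R : Fin 3) (hWN : W ≤ N)
    (h : Gen N W c U R (fun _ => True) 9) :
    ∃ A : Fin 3, A ≠ R ∧ Gen N W c U R (fun y => c y = A) 4 := by
  by_contra hcon
  have hcon' : ∀ A : Fin 3, ∃ Λ : Finset ℕ, A ≠ R → Λ.card ≤ 4 ∧ (∀ α ∈ Λ, 1 ≤ α ∧ α * W ≤ N) ∧
      ∀ y, 2 ≤ y → y ≤ W → c y = A → ¬ ∀ α ∈ Λ, α * y ∉ U ∧ c (α * y) ≠ R := by
    intro A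
    by_cases hA : A = R
    · exact ⟨∅, fun h => absurd hA h⟩
    · have : ¬ Gen N W c U R (fun y => c y = A) 4 := fun hG => hcon ⟨A, hA, hG⟩
      simp only [Gen, not_exists, not_forall] at this
      obtain ⟨Λ, h1, h2, h3⟩ := this
      exact ⟨Λ, fun _ => ⟨h1, h2, fun y a b d e => h3 y ⟨a, b, d, e⟩⟩⟩
  choose Λ hΛ using hcon'
  obtain ⟨y, hy1, hy2, -, hy3⟩ := h (insert 1 ((univ.erase R).biUnion Λ)) (by
    refine (card_insert_le _ _).trans ?_
    have := card_biUnion_le_card_mul (univ.erase R) Λ 4 fun k hk => (hΛ k (ne_of_mem_erase hk)).1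
    rw [card_erase_of_mem (mem_univ _)] at this
    simp only [card_univ, Fintype.card_fin] at this
    omega) (by
    intro α hα
    simp only [mem_insert, mem_biUnion] at hα
    rcases hα with rfl | ⟨k, hk, hα⟩
    · simpa using hWN
    · exact (hΛ k (ne_of_mem_erase hk)).2.1 α hα)
  have hyR : c y ≠ R := by simpa using (hy3 1 (mem_insert_self _ _)).2
  refine (hΛ (c y) hyR).2.2 y hy1 hy2 rfl fun α hα => hy3 α ?_
  simp only [mem_insert, mem_biUnion]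
  exact Or.inr ⟨c y, mem_erase.mpr ⟨hyR, mem_univ _⟩, hα⟩

lemma third (R A : Fin 3) (h : A ≠ R) : ∃ B : Fin 3, B ≠ R ∧ B ≠ A ∧ ∀ k, k = R ∨ k = A ∨ k = B := by
  revert R A; decide

/-- The structural data. -/
structure Str (N W : ℕ) (c : ℕ → Fin 3) (U : Finset ℕ) (R A B : Fin 3) : Prop where
  clean : Clean N c U
  gen : Gen N W c U R (fun y => c y = A) 4
  tri : ∀ k, k = R ∨ k = A ∨ k = B
  hAR : A ≠ R
  hBR : B ≠ R
  hBA : B ≠ A
  hW : W ^ 4 ≤ N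
  hW1 : 1 ≤ W

namespace Str

variable {N W : ℕ} {c : ℕ → Fin 3} {U : Finset ℕ} {R A B : Fin 3}

lemma gen4 (h : Str N W c U R A B) (a1 a2 a3 a4 : ℕ) (h1 : 1 ≤ a1) (h2 : 1 ≤ a2) (h3 : 1 ≤ a3)
    (h4 : 1 ≤ a4) (k1 : a1 * W ≤ N) (k2 : a2 * W ≤ N) (k3 : a3 * W ≤ N) (k4 : a4 * W ≤ N) :
    ∃ y, 2 ≤ y ∧ y ≤ W ∧ c y = A ∧ (a1 * y ∉ U ∧ c (a1 * y) ≠ R) ∧ (a2 * y ∉ U ∧ c (a2 * y) ≠ R) ∧
      (a3 * y ∉ U ∧ c (a3 * y) ≠ R) ∧ (a4 * y ∉ U ∧ c (a4 * y) ≠ R) := by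
  obtain ⟨y, hy1, hy2, hy3, hy4⟩ := h.gen {a1, a2, a3, a4} card_le_four (by
    intro α hα
    simp only [mem_insert, mem_singleton] at hα
    rcases hα with rfl | rfl | rfl | rfl <;> exact ⟨by assumption, by assumption⟩)
  exact ⟨y, hy1, hy2, hy3, hy4 _ (by simp), hy4 _ (by simp), hy4 _ (by simp), hy4 _ (by simp)⟩

lemma isB (h : Str N W c U R A B) {k : Fin 3} (h1 : k ≠ R) (h2 : k ≠ A) : k = B := by
  rcases h.tri k with h' | h' | h' <;> simp_all

lemma isA (h : Str N W c U R A B) {k : Fin 3} (h1 : k ≠ R) (h2 : k ≠ B) : k = A := by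
  rcases h.tri k with h' | h' | h' <;> simp_all

lemma isR (h : Str N W c U R A B) {k : Fin 3} (h1 : k ≠ A) (h2 : k ≠ B) : k = R := by
  rcases h.tri k with h' | h' | h' <;> simp_all

lemma pow_le (h : Str N W c U R A B) {i : ℕ} (hi : i ≤ 4) : W ^ i ≤ N :=
  (Nat.pow_le_pow_right h.hW1 hi).trans h.hW

/-- Small numbers do not have colour `B`. -/
lemma not_B (h : Str N W c U R A B) (t : ℕ) (ht : 2 ≤ t) (htN : t * W ^ 3 ≤ N) : c t ≠ B := by
  intro hB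
  have hW1 := h.hW1
  have w1 : 1 * W ≤ N := by simpa using h.pow_le (i := 1) (by norm_num)
  obtain ⟨y1, a1, b1, c1, -⟩ := h.gen4 1 1 1 1 le_rfl le_rfl le_rfl le_rfl w1 w1 w1 w1
  have s1 : y1 * W ≤ N := le_trans (by rw [sq]; gcongr) (h.pow_le (i := 2) (by norm_num))
  have s2 : t * y1 * W ≤ N := by
    refine le_trans ?_ htN
    calc t * y1 * W ≤ t * W * W * W := by
          have : t * y1 * W ≤ t * W * W := by gcongr
          exact this.trans (Nat.le_mul_of_pos_right _ hW1)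
      _ = t * W ^ 3 := by ring
  obtain ⟨y2, a2, b2, c2, ⟨d1, d2⟩, ⟨d3, d4⟩, -⟩ := h.gen4 y1 (t * y1) 1 1 (by omega)
    (Nat.mul_pos (by omega) (by omega)) le_rfl le_rfl s1 s2 w1 w1
  have n12 : y1 * y2 ≤ N := le_trans (by gcongr) s1
  have nt12 : t * y1 * y2 ≤ N := le_trans (by gcongr) s2
  have g12 : 2 ≤ y1 * y2 := by nlinarith only [a1, a2]
  have e12 : c (y1 * y2) = B := h.isB d2 (h.clean y1 y2 _ A a1 a2 rfl n12 d1 c1 c2)
  have et12 : c (t * y1 * y2) = A :=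
    h.isA d4 (h.clean t (y1 * y2) _ B ht g12 (by ring) nt12 d3 hB e12)
  have s3 : y1 * y2 * W ≤ N :=
    le_trans (by rw [pow_succ, sq]; gcongr) (h.pow_le (i := 3) (by norm_num))
  have s4 : t * y1 * y2 * W ≤ N := by
    refine le_trans ?_ htN
    calc t * y1 * y2 * W ≤ t * W * W * W := by gcongr
      _ = t * W ^ 3 := by ring
  obtain ⟨y3, a3, b3, c3, ⟨f1, f2⟩, ⟨f3, f4⟩, -⟩ := h.gen4 (y1 * y2) (t * y1 * y2) 1 1 (by omega)
    (by nlinarith only [ht, g12]) le_rfl le_rfl s3 s4 w1 w1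
  have nt123 : t * y1 * y2 * y3 ≤ N := le_trans (by gcongr) s4
  have g123 : 2 ≤ y1 * y2 * y3 := by nlinarith only [a3, g12]
  have et123 : c (t * y1 * y2 * y3) = B :=
    h.isB f4 (h.clean (t * y1 * y2) y3 _ A (by nlinarith only [ht, g12]) a3 rfl nt123 f3 et12 c3)
  have e123 : c (y1 * y2 * y3) = A := by
    refine h.isA f2 fun hh => ?_
    exact h.clean t (y1 * y2 * y3) _ B ht g123 (by ring) nt123 f3 hB hh et123
  have s5 : y3 * W ≤ N := le_trans (by rw [sq]; gcongr) (h.pow_le (i := 2) (by norm_num))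
  have s6 : y1 * y2 * y3 * W ≤ N :=
    le_trans (by rw [pow_succ, pow_succ, sq]; gcongr) h.hW
  obtain ⟨y4, a4, b4, c4, ⟨j1, j2⟩, ⟨j3, j4⟩, -⟩ := h.gen4 y3 (y1 * y2 * y3) 1 1 (by omega)
    (by omega) le_rfl le_rfl s5 s6 w1 w1
  have e34 : c (y3 * y4) = B :=
    h.isB j2 (h.clean y3 y4 _ A a3 a4 rfl (le_trans (by gcongr) s5) j1 c3 c4)
  have n4 : y1 * y2 * y3 * y4 ≤ N := le_trans (by gcongr) s6
  have u1 := h.clean (y1 * y2 * y3) y4 _ A g123 a4 rfl n4 j3 e123 c4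
  have u2 := h.clean (y1 * y2) (y3 * y4) _ B g12 (by nlinarith only [a3, a4]) (by ring) n4 j3 e12 e34
  exact u2 (h.isB j4 u1)

/-- Very small numbers do not have colour `A`. -/
lemma not_A (h : Str N W c U R A B) (v : ℕ) (hv : 2 ≤ v) (hvN : v * W ^ 4 ≤ N) : c v ≠ A := by
  intro hA
  have hW1 := h.hW1
  have w1 : 1 * W ≤ N := by simpa using h.pow_le (i := 1) (by norm_num)
  obtain ⟨y1, a1, b1, c1, -⟩ := h.gen4 1 1 1 1 le_rfl le_rfl le_rfl le_rfl w1 w1 w1 w1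
  have s1 : y1 * W ≤ N := le_trans (by rw [sq]; gcongr) (h.pow_le (i := 2) (by norm_num))
  obtain ⟨y2, a2, b2, c2, ⟨d1, d2⟩, -⟩ := h.gen4 y1 1 1 1 (by omega) le_rfl le_rfl le_rfl
    s1 w1 w1 w1
  have n12 : y1 * y2 ≤ N := le_trans (by gcongr) s1
  have g12 : 2 ≤ y1 * y2 := by nlinarith only [a1, a2]
  have e12 : c (y1 * y2) = B := h.isB d2 (h.clean y1 y2 _ A a1 a2 rfl n12 d1 c1 c2)
  have s3 : y1 * y2 * W ≤ N :=
    le_trans (by rw [pow_succ, sq]; gcongr) (h.pow_le (i := 3) (by norm_num))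
  obtain ⟨y3, a3, b3, c3, ⟨f1, f2⟩, -⟩ := h.gen4 (y1 * y2) 1 1 1 (by omega) le_rfl le_rfl le_rfl
    s3 w1 w1 w1
  have g123 : 2 ≤ y1 * y2 * y3 := by nlinarith only [a3, g12]
  have s4 : v * W ≤ N := by
    refine le_trans (Nat.mul_le_mul_left _ ?_) hvN
    simpa using Nat.pow_le_pow_right hW1 (show 1 ≤ 4 by norm_num)
  have s5 : y3 * W ≤ N := le_trans (by rw [sq]; gcongr) (h.pow_le (i := 2) (by norm_num))
  have s6 : y1 * y2 * y3 * W ≤ N :=
    le_trans (by rw [pow_succ, pow_succ, sq]; gcongr) h.hW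
  have s7 : v * (y1 * y2 * y3) * W ≤ N := by
    refine le_trans ?_ hvN
    calc v * (y1 * y2 * y3) * W ≤ v * (W * W * W) * W := by gcongr
      _ = v * W ^ 4 := by ring
  obtain ⟨y4, a4, b4, c4, ⟨j1, j2⟩, ⟨j3, j4⟩, ⟨j5, j6⟩, ⟨j7, j8⟩⟩ :=
    h.gen4 v y3 (y1 * y2 * y3) (v * (y1 * y2 * y3)) (by omega)
    (by omega) (by omega) (by nlinarith only [hv, g123]) s4 s5 s6 s7
  have ev4 : c (v * y4) = B :=
    h.isB j2 (h.clean v y4 _ A hv a4 rfl (le_trans (by gcongr) s4) j1 hA c4)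
  have e34 : c (y3 * y4) = B :=
    h.isB j4 (h.clean y3 y4 _ A a3 a4 rfl (le_trans (by gcongr) s5) j3 c3 c4)
  have n4 : y1 * y2 * y3 * y4 ≤ N := le_trans (by gcongr) s6
  have e4 : c (y1 * y2 * y3 * y4) = A :=
    h.isA j6 (h.clean (y1 * y2) (y3 * y4) _ B g12 (by nlinarith only [a3, a4]) (by ring) n4 j5 e12 e34)
  have e123 : c (y1 * y2 * y3) = B := by
    refine h.isB f2 fun hh => ?_
    exact h.clean (y1 * y2 * y3) y4 _ A g123 a4 rfl n4 j5 hh c4 e4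
  have n5 : v * (y1 * y2 * y3) * y4 ≤ N := le_trans (by gcongr) s7
  have u1 := h.clean v (y1 * y2 * y3 * y4) _ A hv (by nlinarith only [a4, g123]) (by ring) n5 j7 hA e4
  have u2 := h.clean (v * y4) (y1 * y2 * y3) _ B (by nlinarith only [hv, a4]) g123 (by ring) n5 j7 ev4 e123
  exact u2 (h.isB j8 u1)

lemma red (h : Str N W c U R A B) (v : ℕ) (hv : 2 ≤ v) (hvN : v * W ^ 4 ≤ N) : c v = R :=
  h.isR (h.not_A v hv hvN) (h.not_B v hv (le_trans (Nat.mul_le_mul_left _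
    (Nat.pow_le_pow_right h.hW1 (by norm_num))) hvN))

lemma mul_ne_A (h : Str N W c U R A B) (X y : ℕ) (hX : 2 ≤ X) (hy : 2 ≤ y) (cX : c X = B)
    (cy : c y = A) (hN : X * y * W ≤ N) : c (X * y) ≠ A := by
  intro hA
  have s1 : y * W ≤ N := le_trans (by nlinarith only [hX, Nat.zero_le (y * W)]) hN
  obtain ⟨y1, a1, b1, c1, ⟨d1, d2⟩, ⟨d3, d4⟩, -⟩ := h.gen4 y (X * y) y y (by omega) (by nlinarith only [hX, hy])
    (by omega) (by omega) s1 hN s1 s1
  have e1 : c (y * y1) = B :=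
    h.isB d2 (h.clean y y1 _ A hy a1 rfl (le_trans (by gcongr) s1) d1 cy c1)
  have n : X * y * y1 ≤ N := le_trans (by gcongr) hN
  have u1 := h.clean (X * y) y1 _ A (by nlinarith only [hX, hy]) a1 rfl n d3 hA c1
  have u2 := h.clean X (y * y1) _ B hX (by nlinarith only [hy, a1]) (by ring) n d3 cX e1
  exact u2 (h.isB d4 u1)

lemma mul_ne_A' (h : Str N W c U R A B) (X x t : ℕ) (hX : 2 ≤ X) (hx : 2 ≤ x) (ht : 1 ≤ t)
    (cX : c X = B) (cxt : c (x * t) ≠ R) (h1 : t * W ^ 4 ≤ N) (h2 : x * t * W ^ 3 ≤ N)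
    (hN : X * (x * t) * W ≤ N) : c (X * x) ≠ A := by
  intro hA
  have hW1 := h.hW1
  have gxt : 2 ≤ x * t := by nlinarith only [hx, ht]
  have cxt' : c (x * t) = A := h.isA cxt (h.not_B _ gxt h2)
  have s1 : t * W ≤ N := by
    refine le_trans (Nat.mul_le_mul_left _ ?_) h1
    simpa using Nat.pow_le_pow_right hW1 (show 1 ≤ 4 by norm_num)
  have s2 : x * t * W ≤ N := le_trans (by nlinarith only [hX, Nat.zero_le (x * t * W)]) hN
  obtain ⟨y1, a1, b1, c1, ⟨d1, d2⟩, ⟨d3, d4⟩, ⟨d5, d6⟩, -⟩ := h.gen4 t (x * t) (X * (x * t)) t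
    ht (by omega) (by nlinarith only [hX, gxt]) ht s1 s2 hN s1
  have e1 : c (t * y1) = A := by
    refine h.isA d2 (h.not_B _ (by nlinarith only [ht, a1]) (le_trans ?_ h1))
    calc t * y1 * W ^ 3 ≤ t * W * W ^ 3 := by gcongr
      _ = t * W ^ 4 := by ring
  have e2 : c (x * t * y1) = B :=
    h.isB d4 (h.clean (x * t) y1 _ A gxt a1 rfl (le_trans (by gcongr) s2) d3 cxt' c1)
  have n : X * (x * t) * y1 ≤ N := le_trans (by gcongr) hN
  have u1 := h.clean (X * x) (t * y1) _ A (by nlinarith only [hX, hx]) (by nlinarith only [ht, a1]) (by ring) n d5 hA e1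
  have u2 := h.clean X (x * t * y1) _ B hX (by nlinarith only [a1, gxt]) (by ring) n d5 cX e2
  exact u2 (h.isB d6 u1)

end Str

end Pool.Agent.Work.MP_3e8641_co
end

-- merged part: Pool.Agent.Work.MP_3e8641_co.Config
section
namespace Pool.Agent.Work.MP_3e8641_co

open Finset

/-- A pair `p`, `p * h` of colour `A` with `h` small, `p ≤ M`, `p * h ≤ 2 M`. -/
structure Pr (M H : ℕ) (c : ℕ → Fin 3) (A : Fin 3) (p h : ℕ) : Prop where
  p2 : 2 ≤ p
  h2 : 2 ≤ h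
  hH : h ≤ H
  pM : p ≤ M
  qM : p * h ≤ 2 * M
  cp : c p = A
  cq : c (p * h) = A

/-- A factorisation `y = x * x'` into red factors whose products with `B`-elements up to
`4 M ^ 2` do not have colour `A`. -/
def Fac (M : ℕ) (c : ℕ → Fin 3) (R A B : Fin 3) (y : ℕ) : Prop :=
  ∃ x x', y = x * x' ∧ 2 ≤ x ∧ 2 ≤ x' ∧ c x = R ∧ c x' = R ∧
    ∀ X, 2 ≤ X → X ≤ 4 * M ^ 2 → c X = B → c (X * x) ≠ A ∧ c (X * x') ≠ A

namespace Str

variable {N W : ℕ} {c : ℕ → Fin 3} {U : Finset ℕ} {R A B : Fin 3}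

lemma stepA (h : Str N W c U R A B) {M H : ℕ} (hN : 16 * M ^ 5 ≤ N)
    (hred : ∀ v, 2 ≤ v → v ≤ H * H → c v = R) {p1 h1 p2 h2 : ℕ}
    (P1 : Pr M H c A p1 h1) (P2 : Pr M H c A p2 h2) (hcl : ∀ n, p1 ∣ n → p2 ∣ n → n ∉ U) :
    ∃ X, c X = B ∧ p1 ∣ X ∧ 2 ≤ X ∧ X ≤ 2 * M ^ 2 := by
  have hM : 2 ≤ M := P1.p2.trans P1.pM
  have hM5 : 2 * M ^ 2 ≤ N := by
    have : M ^ 2 ≤ M ^ 5 := Nat.pow_le_pow_right (by omega) (by norm_num)
    omega
  have a1 := P1.p2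
  have a2 := P2.p2
  have a3 := P2.h2
  have b1 : p1 * p2 ≤ 2 * M ^ 2 := by
    have := Nat.mul_le_mul P1.pM P2.pM
    linarith only [this, mul_self_nonneg ↑M]
  have b2 : p1 * (p2 * h2) ≤ 2 * M ^ 2 := by
    have := Nat.mul_le_mul P1.pM P2.qM
    linarith only [this]
  have g2 : 2 ≤ p2 * h2 := by nlinarith only [a2, a3]
  have u1 : p1 * p2 ∉ U := hcl _ (dvd_mul_right _ _) (dvd_mul_left _ _)
  have u2 : p1 * (p2 * h2) ∉ U := hcl _ (dvd_mul_right _ _) ⟨p1 * h2, by ring⟩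
  have e1 := h.clean p1 p2 _ A a1 a2 rfl (b1.trans hM5) u1 P1.cp P2.cp
  have e2 := h.clean p1 (p2 * h2) _ A a1 (by linarith only [g2]) rfl (b2.trans hM5) u2 P1.cp P2.cq
  by_cases hR : c (p1 * p2) = R
  · have hh : c h2 = R := hred h2 a3 (P2.hH.trans (Nat.le_mul_self _))
    have e3 := h.clean (p1 * p2) h2 _ R (by nlinarith only [a1, a2]) a3 (by ring) (b2.trans hM5) u2 hR hh
    exact ⟨p1 * (p2 * h2), h.isB e3 e2, dvd_mul_right _ _, by nlinarith only [a1, g2], b2⟩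
  · exact ⟨p1 * p2, h.isB hR e1, dvd_mul_right _ _, by nlinarith only [a1, a2], b1⟩

lemma stepB (h : Str N W c U R A B) {M H : ℕ} (hN : 16 * M ^ 5 ≤ N)
    (hred : ∀ v, 2 ≤ v → v ≤ H * H → c v = R) {p3 h3 p4 h4 : ℕ}
    (P3 : Pr M H c A p3 h3) (P4 : Pr M H c A p4 h4) (hcl : ∀ n, p3 ∣ n → p4 ∣ n → n ∉ U) :
    ∃ X g, c X = B ∧ c (X * g) = B ∧ 2 ≤ g ∧ c g = R ∧ X * g ≤ 4 * M ^ 2 ∧ p3 ∣ X ∧ 2 ≤ X := by
  have hM : 2 ≤ M := P3.p2.trans P3.pM
  have hM5 : 4 * M ^ 2 ≤ N := by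
    have : M ^ 2 ≤ M ^ 5 := Nat.pow_le_pow_right (by omega) (by norm_num)
    omega
  have a1 := P3.p2
  have a2 := P4.p2
  have a3 := P3.h2
  have a4 := P4.h2
  have b3 : p3 * h3 * (p4 * h4) ≤ 4 * M ^ 2 := by
    have := Nat.mul_le_mul P3.qM P4.qM
    linarith only [this]
  have b2 : p3 * h3 * p4 ≤ 4 * M ^ 2 :=
    le_trans (Nat.mul_le_mul_left _ (Nat.le_mul_of_pos_right _ (by omega))) b3
  have b1 : p3 * p4 ≤ 4 * M ^ 2 :=
    le_trans (Nat.mul_le_mul_right _ (Nat.le_mul_of_pos_right _ (by omega))) b2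
  have u1 : p3 * p4 ∉ U := hcl _ (dvd_mul_right _ _) (dvd_mul_left _ _)
  have u2 : p3 * h3 * p4 ∉ U := hcl _ ⟨h3 * p4, by ring⟩ (dvd_mul_left _ _)
  have u3 : p3 * h3 * (p4 * h4) ∉ U := hcl _ ⟨h3 * (p4 * h4), by ring⟩ ⟨p3 * h3 * h4, by ring⟩
  have g3 : 2 ≤ p3 * h3 := by nlinarith only [a1, a3]
  have g4 : 2 ≤ p4 * h4 := by nlinarith only [a2, a4]
  have e1 := h.clean p3 p4 _ A a1 a2 rfl (b1.trans hM5) u1 P3.cp P4.cp
  have e2 := h.clean (p3 * h3) p4 _ A g3 a2 rfl (b2.trans hM5) u2 P3.cq P4.cp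
  have e3 := h.clean (p3 * h3) (p4 * h4) _ A g3 g4 rfl (b3.trans hM5) u3 P3.cq P4.cq
  have r3 : c h3 = R := hred h3 a3 (P3.hH.trans (Nat.le_mul_self _))
  have r4 : c h4 = R := hred h4 a4 (P4.hH.trans (Nat.le_mul_self _))
  have r34 : c (h3 * h4) = R := hred _ (by nlinarith only [a3, a4]) (Nat.mul_le_mul P3.hH P4.hH)
  have g34 : 2 ≤ p3 * p4 := by nlinarith only [a1, a2]
  have g334 : 2 ≤ p3 * h3 * p4 := by nlinarith only [a2, g3]
  by_cases hR : c (p3 * p4) = R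
  · have f2 := h.clean (p3 * p4) h3 _ R g34 a3 (by ring) (b2.trans hM5) u2 hR r3
    have f3 := h.clean (p3 * p4) (h3 * h4) _ R g34 (by nlinarith only [a3, a4]) (by ring) (b3.trans hM5) u3 hR r34
    refine ⟨p3 * h3 * p4, h4, h.isB f2 e2, ?_, a4, r4, ?_, ⟨h3 * p4, by ring⟩, g334⟩
    · rw [mul_assoc]; exact h.isB f3 e3
    · rw [mul_assoc]; exact b3
  · have f1 := h.isB hR e1
    by_cases hR2 : c (p3 * h3 * p4) = R
    · have f3 := h.clean (p3 * h3 * p4) h4 _ R g334 a4 (by ring) (b3.trans hM5) u3 hR2 r4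
      have e : p3 * p4 * (h3 * h4) = p3 * h3 * (p4 * h4) := by ring
      refine ⟨p3 * p4, h3 * h4, f1, ?_, by nlinarith only [a3, a4], r34, ?_, dvd_mul_right _ _, g34⟩
      · rw [e]; exact h.isB f3 e3
      · rw [e]; exact b3
    · have e : p3 * p4 * h3 = p3 * h3 * p4 := by ring
      refine ⟨p3 * p4, h3, f1, ?_, a3, r3, ?_, dvd_mul_right _ _, g34⟩
      · rw [e]; exact h.isB hR2 e2
      · rw [e]; exact b2

/-- The main configuration: five pairs with clean products cannot exist. -/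
lemma config (h : Str N W c U R A B) {M H : ℕ} (hN : 16 * M ^ 5 ≤ N) (hNW : 8 * M ^ 3 * W ≤ N)
    (hred : ∀ v, 2 ≤ v → v ≤ H * H → c v = R) {p1 h1 p2 h2 p3 h3 p4 h4 p5 h5 : ℕ}
    (P1 : Pr M H c A p1 h1) (P2 : Pr M H c A p2 h2) (P3 : Pr M H c A p3 h3)
    (P4 : Pr M H c A p4 h4) (P5 : Pr M H c A p5 h5)
    (F1 : Fac M c R A B p5) (F2 : Fac M c R A B (p5 * h5))
    (c12 : ∀ n, p1 ∣ n → p2 ∣ n → n ∉ U) (c34 : ∀ n, p3 ∣ n → p4 ∣ n → n ∉ U)
    (c13 : ∀ n, p1 ∣ n → p3 ∣ n → n ∉ U) (c15 : ∀ n, p1 ∣ n → p5 ∣ n → n ∉ U)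
    (c35 : ∀ n, p3 ∣ n → p5 ∣ n → n ∉ U) : False := by
  have hM : 2 ≤ M := P1.p2.trans P1.pM
  obtain ⟨X, cX, dX, gX, bX⟩ := h.stepA hN hred P1 P2 c12
  obtain ⟨X', g, cX', cXg, gg, cg, bXg, dX', gX'⟩ := h.stepB hN hred P3 P4 c34
  have hM4 : 8 * M ^ 4 ≤ N := by
    have : M ^ 4 ≤ M ^ 5 := Nat.pow_le_pow_right (by omega) (by norm_num)
    omega
  have hM3 : 8 * M ^ 3 ≤ N := by
    have : M ^ 3 ≤ M ^ 5 := Nat.pow_le_pow_right (by omega) (by norm_num)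
    omega
  have bX' : X' ≤ 4 * M ^ 2 := le_trans (Nat.le_mul_of_pos_right _ (by omega)) bXg
  have hmul : ∀ Z, Z ≤ 4 * M ^ 2 → X * Z ≤ 8 * M ^ 4 := by
    intro Z hZ
    calc X * Z ≤ 2 * M ^ 2 * (4 * M ^ 2) := Nat.mul_le_mul bX hZ
      _ = 8 * M ^ 4 := by ring
  obtain ⟨Z, cZ, bZ, dZ, gZ, cXZ⟩ :
      ∃ Z, c Z = B ∧ Z ≤ 4 * M ^ 2 ∧ p3 ∣ Z ∧ 2 ≤ Z ∧ c (X * Z) = A := by
    have u1 : X * X' ∉ U := c13 _ (dX.mul_right _) (dX'.mul_left _)
    have u2 : X * (X' * g) ∉ U := c13 _ (dX.mul_right _) ((dX'.mul_right _).mul_left _)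
    have gXg : 2 ≤ X' * g := by nlinarith only [gg, gX']
    have e1 := h.clean X X' _ B gX gX' rfl ((hmul _ bX').trans hM4) u1 cX cX'
    have e2 := h.clean X (X' * g) _ B gX gXg rfl ((hmul _ bXg).trans hM4) u2 cX cXg
    by_cases hR : c (X * X') = R
    · have e3 := h.clean (X * X') g _ R (by nlinarith only [gX, gX']) gg (by ring) ((hmul _ bXg).trans hM4) u2 hR cg
      exact ⟨X' * g, cXg, bXg, dX'.mul_right _, gXg, h.isA e3 e2⟩
    · exact ⟨X', cX', bX', dX', gX', h.isA hR e1⟩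
  have gXZ : 2 ≤ X * Z := by nlinarith only [gX, gZ]
  have hmul2 : ∀ y, y ≤ 2 * M → X * Z * y ≤ N := by
    intro y hy
    calc X * Z * y ≤ 8 * M ^ 4 * (2 * M) := Nat.mul_le_mul (hmul _ bZ) hy
      _ = 16 * M ^ 5 := by ring
      _ ≤ N := hN
  obtain ⟨y, cy, by', dy, gy, Fy, cz⟩ :
      ∃ y, c y = A ∧ y ≤ 2 * M ∧ p5 ∣ y ∧ 2 ≤ y ∧ Fac M c R A B y ∧ c (X * Z * y) = B := by
    have a5 := P5.p2
    have a6 := P5.h2
    have b5 : p5 ≤ 2 * M := by have := P5.pM; omega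
    have g5 : 2 ≤ p5 * h5 := by nlinarith only [a5, a6]
    have u1 : X * Z * p5 ∉ U := c15 _ ((dX.mul_right _).mul_right _) (dvd_mul_left _ _)
    have u2 : X * Z * (p5 * h5) ∉ U :=
      c15 _ ((dX.mul_right _).mul_right _) ((dvd_mul_right _ _).mul_left _)
    have e1 := h.clean (X * Z) p5 _ A gXZ a5 rfl (hmul2 _ b5) u1 cXZ P5.cp
    have e2 := h.clean (X * Z) (p5 * h5) _ A gXZ g5 rfl (hmul2 _ P5.qM) u2 cXZ P5.cq
    by_cases hR : c (X * Z * p5) = R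
    · have r5 : c h5 = R := hred h5 a6 (P5.hH.trans (Nat.le_mul_self _))
      have e3 := h.clean (X * Z * p5) h5 _ R (by nlinarith only [a5, gXZ]) a6 (by ring) (hmul2 _ P5.qM) u2 hR r5
      exact ⟨p5 * h5, P5.cq, P5.qM, dvd_mul_right _ _, g5, F2, h.isB e3 e2⟩
    · exact ⟨p5, P5.cp, b5, dvd_rfl, a5, F1, h.isB hR e1⟩
  have uz : X * Z * y ∉ U := c15 _ ((dX.mul_right _).mul_right _) (dy.mul_left _)
  have nz := hmul2 y by'
  have bX4 : X ≤ 4 * M ^ 2 := by omega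
  have hmul3 : ∀ T, T ≤ 4 * M ^ 2 → T * y ≤ 8 * M ^ 3 := by
    intro T hT
    calc T * y ≤ 4 * M ^ 2 * (2 * M) := Nat.mul_le_mul hT by'
      _ = 8 * M ^ 3 := by ring
  have rZ : c (Z * y) = R := by
    refine h.isR (h.mul_ne_A Z y gZ gy cZ cy
      (le_trans (Nat.mul_le_mul_right _ (hmul3 _ bZ)) hNW)) fun hh => ?_
    exact h.clean X (Z * y) _ B gX (by nlinarith only [gZ, gy]) (by ring) nz uz cX hh cz
  have rX : c (X * y) = R := by
    refine h.isR (h.mul_ne_A X y gX gy cX cy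
      (le_trans (Nat.mul_le_mul_right _ (hmul3 _ bX4)) hNW)) fun hh => ?_
    exact h.clean Z (X * y) _ B gZ (by nlinarith only [gX, gy]) (by ring) nz uz cZ hh cz
  obtain ⟨x, x', rfl, gx, gx', cx, cx', hF⟩ := Fy
  have v1 : c (X * x) ≠ R := fun hh =>
    h.clean (X * x) x' (X * (x * x')) R (by nlinarith only [gX, gx]) gx' (by ring) ((hmul3 _ bX4).trans hM3)
      (c15 _ (dX.mul_right _) (dy.mul_left _)) hh cx' rX
  have v2 : c (Z * x') ≠ R := fun hh =>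
    h.clean (Z * x') x (Z * (x * x')) R (by nlinarith only [gZ, gx']) gx (by ring) ((hmul3 _ bZ).trans hM3)
      (c35 _ (dZ.mul_right _) (dy.mul_left _)) hh cx rZ
  have w1 := h.isB v1 (hF X gX bX4 cX).1
  have w2 := h.isB v2 (hF Z gZ bZ cZ).2
  exact h.clean (X * x) (Z * x') _ B (by nlinarith only [gX, gx]) (by nlinarith only [gZ, gx']) (by ring) nz uz w1 w2 cz

end Str

/-- Greedy selection of elements with no common hit. -/
lemma select (Z U : Finset ℕ) (hit : ℕ → ℕ → Prop) [DecidableRel hit] (D θ : ℕ)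
    (hD : ∀ n ∈ U, (Z.filter fun z => hit z n).card ≤ D)
    (hZ : U.card * D + 4 * (θ * D) * θ < Z.card * θ) :
    ∃ L : Finset ℕ, L ⊆ Z ∧ ∀ T : Finset ℕ, T ⊆ L → T.card ≤ 4 →
      ∃ z ∈ L, ∀ t ∈ T, ∀ n ∈ U, hit t n → ¬ hit z n := by
  let L := Z.filter fun z => (U.filter fun n => hit z n).card ≤ θ
  have hL : (Z.filter fun z => ¬ (U.filter fun n => hit z n).card ≤ θ).card * θ ≤ U.card * D := by
    have := Finset.card_mul_le_card_mul (r := hit)
      (s := Z.filter fun z => ¬ (U.filter fun n => hit z n).card ≤ θ) (t := U) (m := θ) (n := D)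
      (fun a ha => by
        have := (mem_filter.mp ha).2
        simp only [bipartiteAbove]
        omega)
      (fun b hb => by
        refine le_trans (card_le_card ?_) (hD b hb)
        intro z hz
        simp only [bipartiteBelow, mem_filter] at hz ⊢
        exact ⟨hz.1.1, hz.2⟩)
    exact this
  have hsum := card_filter_add_card_filter_not (s := Z)
    (fun z => (U.filter fun n => hit z n).card ≤ θ)
  have hL2 : 4 * (θ * D) < L.card := by
    by_contra hcon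
    push Not at hcon
    have h1 : L.card * θ ≤ 4 * (θ * D) * θ := Nat.mul_le_mul_right _ hcon
    have h2 : Z.card * θ = L.card * θ +
        (Z.filter fun z => ¬ (U.filter fun n => hit z n).card ≤ θ).card * θ := by
      rw [← hsum, add_mul]
    omega
  refine ⟨L, filter_subset _ _, fun T hT hT4 => ?_⟩
  by_contra hcon
  push Not at hcon
  have hsub : L ⊆ T.biUnion fun t => (U.filter fun n => hit t n).biUnion
      fun n => Z.filter fun z => hit z n := by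
    intro z hz
    obtain ⟨t, ht, n, hn, h1, h2⟩ := hcon z hz
    simp only [mem_biUnion, mem_filter]
    exact ⟨t, ht, n, ⟨hn, h1⟩, (mem_filter.mp hz).1, h2⟩
  have h1 := card_le_card hsub
  have h2 := card_biUnion_le_card_mul T (fun t => (U.filter fun n => hit t n).biUnion
      fun n => Z.filter fun z => hit z n) (θ * D) (fun t ht => by
    refine (card_biUnion_le_card_mul _ _ D fun n hn => hD n (mem_filter.mp hn).1).trans ?_
    exact Nat.mul_le_mul_right _ (mem_filter.mp (hT ht)).2)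
  have h3 : T.card * (θ * D) ≤ 4 * (θ * D) := Nat.mul_le_mul_right _ hT4
  omega

end Pool.Agent.Work.MP_3e8641_co
end
end

-- merged part: Pool.Agent.Work.MP_3e8641_co.Main
section
-- merged part: Pool.Agent.Work.MP_3e8641_co.Core
section
namespace Pool.Agent.Work.MP_3e8641_co

open Finset

/-- Monochromatic solutions, as pairs. -/
def Sol (N : ℕ) (c : ℕ → Fin 3) : Finset (ℕ × ℕ) :=
  (Icc 2 N ×ˢ Icc 2 N).filter fun t => t.1 * t.2 ≤ N ∧ c t.1 = c t.2 ∧ c t.2 = c (t.1 * t.2)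

lemma mem_Sol {N : ℕ} {c : ℕ → Fin 3} {x y : ℕ} (hx : 2 ≤ x) (hy : 2 ≤ y) (h : x * y ≤ N)
    (h1 : c x = c y) (h2 : c y = c (x * y)) : (x, y) ∈ Sol N c := by
  simp only [Sol, mem_filter, mem_product, mem_Icc]
  refine ⟨⟨⟨hx, ?_⟩, hy, ?_⟩, h, h1, h2⟩ <;> nlinarith only [hx, h, hy]

/-- Pairs under the hyperbola. -/
def Pairs (M Bd : ℕ) : Finset (ℕ × ℕ) := (Icc Bd M ×ˢ Icc Bd M).filter fun t => t.1 * t.2 ≤ M

lemma clean_Sol (N : ℕ) (c : ℕ → Fin 3) : Clean N c ((Sol N c).image fun t => t.1 * t.2) := by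
  intro x y z k hx hy hz hN hU h1 h2 h3
  subst hz
  exact hU (mem_image.mpr ⟨(x, y), mem_Sol hx hy hN (h1.trans h2.symm) (h2.trans h3.symm), rfl⟩)

section core

variable {N M b : ℕ} {c : ℕ → Fin 3} {U : Finset ℕ} {R A B : Fin 3}

lemma pw (hb : 2 ≤ b) {i j : ℕ} (h : i ≤ j) : b ^ i ≤ b ^ j := Nat.pow_le_pow_right (by omega) h

lemma pw2 (hb : 2 ≤ b) {i j : ℕ} (h : i < j) : 2 * b ^ i ≤ b ^ j := by
  calc 2 * b ^ i ≤ b * b ^ i := Nat.mul_le_mul_right _ hb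
    _ = b ^ (i + 1) := by ring
    _ ≤ b ^ j := pw hb h

lemma red' (h : Str N (M * b ^ 3) c U R A B) (hN : 16 * M ^ 5 ≤ N) (v : ℕ) (hv : 2 ≤ v)
    (hvM : v * b ^ 12 ≤ M) : c v = R := by
  refine h.red v hv ?_
  calc v * (M * b ^ 3) ^ 4 = v * b ^ 12 * M ^ 4 := by ring
    _ ≤ M * M ^ 4 := Nat.mul_le_mul_right _ hvM
    _ = M ^ 5 := by ring
    _ ≤ N := by omega

lemma isA' (h : Str N (M * b ^ 3) c U R A B) (hN : 16 * M ^ 5 ≤ N) (hb : 2 ≤ b) (hM : b ^ 60 ≤ M)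
    (v : ℕ) (hv : 2 ≤ v) (hvM : v ≤ 2 * M) (hc : c v ≠ R) : c v = A := by
  refine h.isA hc (h.not_B v hv ?_)
  have : b ^ 9 ≤ M := (pw hb (by norm_num)).trans hM
  calc v * (M * b ^ 3) ^ 3 = v * b ^ 9 * M ^ 3 := by ring
    _ ≤ 2 * M * M * M ^ 3 := by gcongr
    _ = 2 * M ^ 5 := by ring
    _ ≤ N := by omega

/-- The exceptional set. -/
def Exc (M b : ℕ) (c : ℕ → Fin 3) (R : Fin 3) : Finset ℕ :=
  (Icc 1 M).filter fun x => 2 * x * b ^ 12 ≤ M ∧ ∀ t ∈ Icc 2 (M / b ^ 25), c (2 * x * t) = R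

lemma card_Exc (h : Str N (M * b ^ 3) c U R A B) (hN : 16 * M ^ 5 ≤ N) (hb : 2 ≤ b)
    (hM : b ^ 60 ≤ M) (hS : (Sol N c).card ≤ M * b) : (Exc M b c R).card ≤ b ^ 27 := by
  set T := M / b ^ 25 with hT
  have hb25 : 0 < b ^ 25 := by positivity
  have hT1 : T * b ^ 25 ≤ M := Nat.div_mul_le_self _ _
  have hT2 : M < b ^ 25 * (T + 1) := Nat.lt_mul_div_succ _ hb25
  have hT3 : 3 ≤ T := by
    rw [hT, Nat.le_div_iff_mul_le hb25]
    refine le_trans ?_ hM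
    have h1 := pw2 hb (show 25 < 26 by norm_num)
    have h2 := pw2 hb (show 26 < 60 by norm_num)
    omega
  have hM1 : 1 ≤ M := le_trans (Nat.one_le_pow _ _ (by omega)) hM
  have hinj : ((Exc M b c R) ×ˢ Icc 2 T).card ≤ (Sol N c).card := by
    refine card_le_card_of_injOn (fun t => (2 * t.1, t.2)) ?_ ?_
    · rintro ⟨x, t⟩ hxt
      simp only [Exc, coe_product, Set.mem_prod, mem_coe, mem_filter, mem_Icc] at hxt
      obtain ⟨⟨⟨hx1, hx2⟩, hx3, hx4⟩, ht1, ht2⟩ := hxt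
      have r1 : c (2 * x) = R := red' h hN _ (by omega) hx3
      have r2 : c t = R := red' h hN _ ht1 (le_trans
        (Nat.mul_le_mul ht2 (pw hb (show 12 ≤ 25 by norm_num))) hT1)
      have r3 := hx4 t ⟨ht1, ht2⟩
      refine mem_Sol (by omega) ht1 ?_ (r1.trans r2.symm) (r2.trans r3.symm)
      have e1 : t ≤ M := ht2.trans (Nat.div_le_self _ _)
      have e2 : M ^ 2 ≤ M ^ 5 := Nat.pow_le_pow_right hM1 (by norm_num)
      calc 2 * x * t ≤ 2 * M * M := by gcongr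
        _ = 2 * M ^ 2 := by ring
        _ ≤ N := by omega
    · rintro ⟨x, t⟩ - ⟨x', t'⟩ - hh
      simp only [Prod.mk.injEq] at hh ⊢
      omega
  rw [card_product, Nat.card_Icc] at hinj
  obtain ⟨T', hT'⟩ : ∃ T', T = T' + 1 := ⟨T - 1, by omega⟩
  have e : T + 1 - 2 = T' := by omega
  rw [e] at hinj
  have h1 : M * b ≤ b ^ 27 * T' := by
    calc M * b ≤ b ^ 25 * (2 * T') * b := by
          refine Nat.mul_le_mul_right _ (hT2.le.trans (Nat.mul_le_mul_left _ (by omega)))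
      _ = 2 * b ^ 26 * T' := by ring
      _ ≤ b ^ 27 * T' := Nat.mul_le_mul_right _ (pw2 hb (by norm_num))
  exact Nat.le_of_mul_le_mul_right (hinj.trans (hS.trans h1)) (by omega)

lemma fac_half (h : Str N (M * b ^ 3) c U R A B) (hN : 16 * M ^ 5 ≤ N) (hb : 2 ≤ b)
    {x x1 g : ℕ} (hx : b ^ 30 ≤ x) (hxM : x * b ^ 30 ≤ M) (hE : x ∉ Exc M b c R)
    (hg : 2 * x = x1 * g) (hg1 : g ≤ b ^ 13) :
    2 ≤ x1 ∧ c x1 = R ∧ ∀ X, 2 ≤ X → X ≤ 4 * M ^ 2 → c X = B → c (X * x1) ≠ A := by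
  have hb30 : 1 ≤ b ^ 30 := Nat.one_le_pow _ _ (by omega)
  have hx1 : 1 ≤ x := hb30.trans hx
  have hg0 : 1 ≤ g := by
    rcases Nat.eq_zero_or_pos g with rfl | hh
    · omega
    · exact hh
  have hx12 : 2 ≤ x1 := by
    by_contra hh
    have h1 : x1 * g ≤ 1 * b ^ 13 := Nat.mul_le_mul (by omega) hg1
    have h2 := pw hb (show 13 ≤ 30 by norm_num)
    omega
  have hx1le : x1 ≤ 2 * x := by rw [hg]; exact Nat.le_mul_of_pos_right _ hg0
  have h2x : 2 * x * b ^ 12 ≤ M := by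
    refine le_trans ?_ hxM
    have := pw2 hb (show 12 < 30 by norm_num)
    calc 2 * x * b ^ 12 = x * (2 * b ^ 12) := by ring
      _ ≤ x * b ^ 30 := Nat.mul_le_mul_left _ this
  have hxM' : x ≤ M := le_trans (Nat.le_mul_of_pos_right _ hb30) hxM
  refine ⟨hx12, red' h hN _ hx12 (le_trans (Nat.mul_le_mul_right _ hx1le) h2x), ?_⟩
  intro X hX hXM cX
  simp only [Exc, mem_filter, mem_Icc, not_and, not_forall] at hE
  obtain ⟨t, ⟨ht1, ht2⟩, ht3⟩ := hE ⟨hx1, hxM'⟩ h2x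
  have hT1 : M / b ^ 25 * b ^ 25 ≤ M := Nat.div_mul_le_self _ _
  have htM : t ≤ M := ht2.trans (Nat.div_le_self _ _)
  have e : x1 * (g * t) = 2 * x * t := by rw [hg]; ring
  have h2x9 : 2 * x * b ^ 9 ≤ M :=
    le_trans (Nat.mul_le_mul_left _ (pw hb (by norm_num))) h2x
  have h2x3 : 2 * x * b ^ 3 ≤ M :=
    le_trans (Nat.mul_le_mul_left _ (pw hb (by norm_num))) h2x
  refine h.mul_ne_A' X x1 (g * t) hX hx12 (Nat.mul_pos hg0 (by omega)) cX (by rw [e]; exact ht3)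
    ?_ ?_ ?_
  · have : g * t * b ^ 12 ≤ M := by
      calc g * t * b ^ 12 ≤ b ^ 13 * (M / b ^ 25) * b ^ 12 := by gcongr
        _ = M / b ^ 25 * b ^ 25 := by ring
        _ ≤ M := hT1
    calc g * t * (M * b ^ 3) ^ 4 = g * t * b ^ 12 * M ^ 4 := by ring
      _ ≤ M * M ^ 4 := Nat.mul_le_mul_right _ this
      _ = M ^ 5 := by ring
      _ ≤ N := by omega
  · rw [e]
    calc 2 * x * t * (M * b ^ 3) ^ 3 = 2 * x * b ^ 9 * t * M ^ 3 := by ring
      _ ≤ M * M * M ^ 3 := by gcongr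
      _ = M ^ 5 := by ring
      _ ≤ N := by omega
  · rw [e]
    calc X * (2 * x * t) * (M * b ^ 3) = X * (2 * x * b ^ 3) * t * M := by ring
      _ ≤ 4 * M ^ 2 * M * M * M := by gcongr
      _ = 4 * M ^ 5 := by ring
      _ ≤ N := by omega

/-- `z` is bad if a non-red number is obtained both by halving it some number of times and by
doubling it. -/
def Bad (c : ℕ → Fin 3) (R : Fin 3) (z : ℕ) : Prop :=
  (∃ e p, z = 2 ^ e * p ∧ 2 ≤ p ∧ c p ≠ R) ∧ c (2 * z) ≠ R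

lemma mem_Pairs {M Bd x x' : ℕ} (h : (x, x') ∈ Pairs M Bd) :
    Bd ≤ x ∧ Bd ≤ x' ∧ x * x' ≤ M ∧ x * Bd ≤ M ∧ x' * Bd ≤ M := by
  simp only [Pairs, mem_filter, mem_product, mem_Icc] at h
  obtain ⟨⟨⟨h1, -⟩, h2, -⟩, h3⟩ := h
  refine ⟨h1, h2, h3, le_trans (Nat.mul_le_mul_left _ h2) h3, ?_⟩
  rw [mul_comm]; exact le_trans (Nat.mul_le_mul_right _ h1) h3

lemma bad_data (h : Str N (M * b ^ 3) c U R A B) (hN : 16 * M ^ 5 ≤ N) (hb : 2 ≤ b)
    (hM : b ^ 60 ≤ M) {x x' : ℕ} (hP : (x, x') ∈ Pairs M (b ^ 30)) (hE : x ∉ Exc M b c R)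
    (hE' : x' ∉ Exc M b c R) (hbad : Bad c R (x * x')) :
    ∃ p g, Pr M (b ^ 13) c A p g ∧ Fac M c R A B p ∧ Fac M c R A B (p * g) ∧
      x * x' ∣ p * 2 ^ Nat.log 2 (b ^ 12) := by
  obtain ⟨h1, h2, h3, h4, h5⟩ := mem_Pairs hP
  obtain ⟨⟨e, p, hz, hp, cp⟩, cq⟩ := hbad
  have he1 : 1 ≤ 2 ^ e := Nat.one_le_two_pow
  have hpz : p ≤ x * x' := by rw [hz]; exact Nat.le_mul_of_pos_left _ he1
  have he : 2 ^ e ≤ b ^ 12 := by
    by_contra hh
    push Not at hh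
    refine cp (red' h hN p hp (le_trans ?_ h3))
    rw [hz, mul_comm]
    exact Nat.mul_le_mul_right _ hh.le
  have he13 : 2 * 2 ^ e ≤ b ^ 13 := le_trans (by omega) (pw2 hb (show 12 < 13 by norm_num))
  have hq : p * (2 * 2 ^ e) = 2 * (x * x') := by rw [hz]; ring
  have hb13 : 2 ≤ b ^ 13 := by omega
  refine ⟨p, 2 * 2 ^ e, ⟨hp, by omega, he13, hpz.trans h3, by rw [hq]; omega,
    isA' h hN hb hM p hp (by omega) cp, ?_⟩, ?_, ?_, ?_⟩
  · rw [hq]; exact isA' h hN hb hM _ (by omega) (by omega) cq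
  · obtain ⟨d1, d2, ⟨x1, hx1⟩, ⟨x2, hx2⟩, hd⟩ :=
      exists_dvd_and_dvd_of_dvd_mul (show 2 ^ e ∣ x * x' from ⟨p, hz⟩)
    have hd1 : d1 ≤ 2 ^ e := Nat.le_of_dvd he1 ⟨d2, hd⟩
    have hd2 : d2 ≤ 2 ^ e := Nat.le_of_dvd he1 ⟨d1, by rw [hd, mul_comm]⟩
    obtain ⟨a1, a2, a3⟩ := fac_half h hN hb h1 h4 hE (x1 := x1) (g := 2 * d1)
      (by rw [hx1]; ring) (by omega)
    obtain ⟨b1, b2, b3⟩ := fac_half h hN hb h2 h5 hE' (x1 := x2) (g := 2 * d2)
      (by rw [hx2]; ring) (by omega)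
    refine ⟨x1, x2, ?_, a1, b1, a2, b2, fun X i1 i2 i3 => ⟨a3 X i1 i2 i3, b3 X i1 i2 i3⟩⟩
    refine Nat.eq_of_mul_eq_mul_left he1 ?_
    rw [← hz, hd]
    conv_lhs => rw [hx1, hx2]
    ring
  · obtain ⟨a1, a2, a3⟩ := fac_half h hN hb h1 h4 hE (x1 := x) (g := 2) (by ring) hb13
    obtain ⟨b1, b2, b3⟩ := fac_half h hN hb h2 h5 hE' (x1 := 2 * x') (g := 1) (by ring) (by omega)
    exact ⟨x, 2 * x', by rw [hq]; ring, a1, b1, a2, b2,
      fun X i1 i2 i3 => ⟨a3 X i1 i2 i3, b3 X i1 i2 i3⟩⟩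
  · rw [hz, mul_comm]
    refine Nat.mul_dvd_mul_left _ (pow_dvd_pow _ ?_)
    exact Nat.le_log_of_pow_le (by norm_num) he

open Classical in
/-- Bad pairs away from the exceptional set. -/
noncomputable def BadPairs (M b : ℕ) (c : ℕ → Fin 3) (R : Fin 3) : Finset (ℕ × ℕ) :=
  (Pairs M (b ^ 30)).filter fun t => t.1 ∉ Exc M b c R ∧ t.2 ∉ Exc M b c R ∧ Bad c R (t.1 * t.2)

lemma card_badProd (h : Str N (M * b ^ 3) c U R A B) (hN : 16 * M ^ 5 ≤ N) (hb : 2 ≤ b)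
    (hM : b ^ 60 ≤ M) (hU : U.card ≤ M * b) (hU' : ∀ n ∈ U, n ≠ 0 ∧ n ≤ N)
    (hD : ∀ n, n ≠ 0 → n ≤ N * b ^ 12 → n.divisors.card ≤ b) :
    ((BadPairs M b c R).image fun t => t.1 * t.2).card * b ≤ M := by
  classical
  by_contra hcon
  push Not at hcon
  set Z := (BadPairs M b c R).image fun t => t.1 * t.2 with hZ
  set G := 2 ^ Nat.log 2 (b ^ 12) with hG
  have hG1 : G ≤ b ^ 12 := Nat.pow_log_le_self 2 (by positivity)
  have hG0 : G ≠ 0 := by positivity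
  obtain ⟨L, hLZ, hL⟩ := select Z U (fun z n => z ∣ n * G) b (b ^ 4) (by
    intro n hn
    refine le_trans (card_le_card ?_) (hD (n * G) (mul_ne_zero (hU' n hn).1 hG0)
      (Nat.mul_le_mul (hU' n hn).2 hG1))
    intro z hz
    exact Nat.mem_divisors.mpr ⟨(mem_filter.mp hz).2, mul_ne_zero (hU' n hn).1 hG0⟩) (by
    have h1 : U.card * b ≤ M * b ^ 2 := by
      calc U.card * b ≤ M * b * b := Nat.mul_le_mul_right _ hU
        _ = M * b ^ 2 := by ring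
    have h2 : 4 * (b ^ 4 * b) * b ^ 4 ≤ M * b ^ 2 := by
      have e1 := pw2 hb (show 7 < 8 by norm_num)
      have e2 := pw2 hb (show 8 < 60 by norm_num)
      calc 4 * (b ^ 4 * b) * b ^ 4 = 4 * b ^ 7 * b ^ 2 := by ring
        _ ≤ M * b ^ 2 := Nat.mul_le_mul_right _ (by omega)
    have h3 : 2 * (M * b ^ 2) ≤ M * b ^ 3 := by
      calc 2 * (M * b ^ 2) = M * (2 * b ^ 2) := by ring
        _ ≤ M * b ^ 3 := Nat.mul_le_mul_left _ (pw2 hb (by norm_num))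
    have h4 : M * b ^ 3 < Z.card * b ^ 4 := by
      calc M * b ^ 3 < Z.card * b * b ^ 3 := Nat.mul_lt_mul_of_pos_right hcon (by positivity)
        _ = Z.card * b ^ 4 := by ring
    omega)
  have hdata : ∀ z ∈ L, ∃ p g, Pr M (b ^ 13) c A p g ∧ Fac M c R A B p ∧ Fac M c R A B (p * g) ∧
      z ∣ p * G := by
    intro z hz
    obtain ⟨⟨x, x'⟩, hx, rfl⟩ := mem_image.mp (hLZ hz)
    simp only [BadPairs, mem_filter] at hx
    exact bad_data h hN hb hM hx.1 hx.2.1 hx.2.2.1 hx.2.2.2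
  obtain ⟨z1, m1, -⟩ := hL ∅ (empty_subset _) (by simp)
  obtain ⟨z2, m2, k2⟩ := hL {z1} (by simpa using m1) (by simp)
  obtain ⟨z3, m3, k3⟩ := hL {z1} (by simpa using m1) (by simp)
  obtain ⟨z4, m4, k4⟩ := hL {z3} (by simpa using m3) (by simp)
  obtain ⟨z5, m5, k5⟩ := hL {z1, z3} (by
    intro z hz
    simp only [mem_insert, mem_singleton] at hz
    rcases hz with rfl | rfl <;> assumption) (card_le_two.trans (by norm_num))
  obtain ⟨p1, g1, P1, -, -, d1⟩ := hdata z1 m1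
  obtain ⟨p2, g2, P2, -, -, d2⟩ := hdata z2 m2
  obtain ⟨p3, g3, P3, -, -, d3⟩ := hdata z3 m3
  obtain ⟨p4, g4, P4, -, -, d4⟩ := hdata z4 m4
  obtain ⟨p5, g5, P5, F1, F2, d5⟩ := hdata z5 m5
  have lift : ∀ {z p n : ℕ}, z ∣ p * G → p ∣ n → z ∣ n * G :=
    fun a1 a2 => a1.trans (Nat.mul_dvd_mul_right a2 _)
  refine h.config hN ?_ ?_ P1 P2 P3 P4 P5 F1 F2
    (fun n a1 a2 hn => k2 z1 (by simp) n hn (lift d1 a1) (lift d2 a2))
    (fun n a1 a2 hn => k4 z3 (by simp) n hn (lift d3 a1) (lift d4 a2))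
    (fun n a1 a2 hn => k3 z1 (by simp) n hn (lift d1 a1) (lift d3 a2))
    (fun n a1 a2 hn => k5 z1 (by simp) n hn (lift d1 a1) (lift d5 a2))
    (fun n a1 a2 hn => k5 z3 (by simp) n hn (lift d3 a1) (lift d5 a2))
  · have : b ^ 3 ≤ M := (pw hb (by norm_num)).trans hM
    calc 8 * M ^ 3 * (M * b ^ 3) ≤ 8 * M ^ 3 * (M * M) := by gcongr
      _ = 8 * M ^ 5 := by ring
      _ ≤ N := by omega
  · intro v hv hv2
    refine red' h hN v hv (le_trans ?_ hM)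
    calc v * b ^ 12 ≤ b ^ 13 * b ^ 13 * b ^ 12 := Nat.mul_le_mul_right _ hv2
      _ = b ^ 38 := by ring
      _ ≤ b ^ 60 := pw hb (by norm_num)

lemma card_good (h : Str N (M * b ^ 3) c U R A B) (hN : 16 * M ^ 5 ≤ N) (hb : 2 ≤ b)
    (hM : b ^ 60 ≤ M) (S : Finset (ℕ × ℕ)) (hS : S ⊆ Pairs M (b ^ 30))
    (hgood : ∀ t ∈ S, ¬ Bad c R (t.1 * t.2)) : S.card ≤ (Sol N c).card := by
  classical
  have hM1 : 1 ≤ M := le_trans (Nat.one_le_pow _ _ (by omega)) hM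
  have hMN : 2 * M ≤ N := by
    have : M ≤ M ^ 5 := Nat.le_self_pow (by norm_num) M
    omega
  have hb30 : 2 ≤ b ^ 30 := by simpa using pw2 hb (show 0 < 30 by norm_num)
  let Anc : ℕ → Prop := fun z => ∃ e p, z = 2 ^ e * p ∧ 2 ≤ p ∧ c p ≠ R
  refine card_le_card_of_injOn (fun t => if Anc (t.1 * t.2) then (t.1, 2 * t.2) else t) ?_ ?_
  · rintro ⟨x, x'⟩ ht
    obtain ⟨h1, h2, h3, h4, h5⟩ := mem_Pairs (hS ht)
    have r1 : c x = R := red' h hN x (by omega)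
      (le_trans (Nat.mul_le_mul_left _ (pw hb (by norm_num))) h4)
    have r2 : c x' = R := red' h hN x' (by omega)
      (le_trans (Nat.mul_le_mul_left _ (pw hb (by norm_num))) h5)
    have r3 : c (2 * x') = R := red' h hN _ (by omega) (by
      refine le_trans ?_ h5
      calc 2 * x' * b ^ 12 = x' * (2 * b ^ 12) := by ring
        _ ≤ x' * b ^ 30 := Nat.mul_le_mul_left _ (pw2 hb (by norm_num)))
    by_cases hA : Anc (x * x')
    · simp only [hA, if_true]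
      have r4 : c (2 * (x * x')) = R := by
        by_contra hh
        exact hgood _ ht ⟨hA, hh⟩
      have e : x * (2 * x') = 2 * (x * x') := by ring
      refine mem_Sol (by omega) (by omega) (by omega) (r1.trans r3.symm) ?_
      rw [e, r3, r4]
    · simp only [hA, if_false]
      have r4 : c (x * x') = R := by
        by_contra hh
        exact hA ⟨0, x * x', by simp, by nlinarith only [hb30, h1, h2], hh⟩
      exact mem_Sol (by omega) (by omega) (by omega) (r1.trans r2.symm) (r2.trans r4.symm)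
  · have key : ∀ x x' : ℕ, Anc (x * x') → Anc (x * (2 * x')) := by
      rintro x x' ⟨e, p, h1, h2, h3⟩
      exact ⟨e + 1, p, by rw [pow_succ]; linarith only [h1], h2, h3⟩
    rintro ⟨x, x'⟩ - ⟨y, y'⟩ - hh
    by_cases h1 : Anc (x * x') <;> by_cases h2 : Anc (y * y') <;>
      simp only [h1, h2, if_true, if_false, Prod.mk.injEq] at hh ⊢
    · omega
    · obtain ⟨rfl, rfl⟩ := hh
      exact absurd (key _ _ h1) h2
    · obtain ⟨rfl, rfl⟩ := hh
      exact absurd (key _ _ h2) h1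
    · exact hh

end core

theorem core (N M b : ℕ) (c : ℕ → Fin 3) (hN : 16 * M ^ 5 ≤ N) (hb' : 2 ^ 730 ≤ b)
    (hM : b ^ 60 ≤ M) (hD : ∀ n, n ≠ 0 → n ≤ N * b ^ 12 → n.divisors.card ≤ b)
    (hS : (Sol N c).card ≤ M * b) : (Pairs M (b ^ 30)).card ≤ (Sol N c).card + 3 * M := by
  classical
  have hbig : 27 * 730 < b := lt_of_lt_of_le (by norm_num : 27 * 730 < 2 ^ 15)
    (le_trans (Nat.pow_le_pow_right (by norm_num) (by norm_num)) hb')
  have hb : 2 ≤ b := by omega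
  have hM1 : 1 ≤ M := le_trans (Nat.one_le_pow _ _ (by omega)) hM
  set U := (Sol N c).image fun t => t.1 * t.2 with hUdef
  have hU : U.card ≤ M * b := card_image_le.trans hS
  have hU' : ∀ n ∈ U, n ≠ 0 ∧ n ≤ N := by
    intro n hn
    obtain ⟨⟨x, y⟩, ht, rfl⟩ := mem_image.mp hn
    simp only [Sol, mem_filter, mem_product, mem_Icc] at ht
    exact ⟨Nat.mul_ne_zero (by omega) (by omega), ht.2.1⟩
  have hW4 : (M * b ^ 3) ^ 4 ≤ N := by
    have : b ^ 12 ≤ M := (pw hb (by norm_num)).trans hM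
    calc (M * b ^ 3) ^ 4 = b ^ 12 * M ^ 4 := by ring
      _ ≤ M * M ^ 4 := Nat.mul_le_mul_right _ this
      _ = M ^ 5 := by ring
      _ ≤ N := by omega
  have hW1 : 1 ≤ M * b ^ 3 := Nat.mul_pos hM1 (by positivity)
  obtain ⟨R, hR⟩ := exists_red N (M * b ^ 3) (M * b ^ 2) c U (clean_Sol N c)
    (le_trans (le_trans hb (Nat.le_self_pow (by norm_num) b)) (Nat.le_mul_of_pos_left _ hM1)) (by
      calc 27 * 730 * U.card ≤ 27 * 730 * (M * b) := Nat.mul_le_mul_left _ hU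
        _ < b * (M * b) := Nat.mul_lt_mul_of_pos_right hbig (Nat.mul_pos hM1 (by omega))
        _ = M * b ^ 2 := by ring) (by
      calc 2 ^ 730 * (M * b ^ 2) ≤ b * (M * b ^ 2) := Nat.mul_le_mul_right _ hb'
        _ = M * b ^ 3 := by ring)
  obtain ⟨A, hAR, hA⟩ := exists_A N (M * b ^ 3) c U R
    (le_trans (by simpa using Nat.pow_le_pow_right hW1 (show 1 ≤ 4 by norm_num)) hW4) hR
  obtain ⟨B, hBR, hBA, tri⟩ := third R A hAR
  have h : Str N (M * b ^ 3) c U R A B := ⟨clean_Sol N c, hA, tri, hAR, hBR, hBA, hW4, hW1⟩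
  have hE := card_Exc h hN hb hM hS
  have hZ := card_badProd h hN hb hM hU hU' hD
  set E := Exc M b c R with hEdef
  have hb30 : 0 < b ^ 30 := by positivity
  have hEM : E.card * (M / b ^ 30) ≤ M := by
    calc E.card * (M / b ^ 30) ≤ b ^ 30 * (M / b ^ 30) :=
          Nat.mul_le_mul_right _ (hE.trans (pw hb (by norm_num)))
      _ ≤ M := Nat.mul_div_le _ _
  have hBP : (BadPairs M b c R).card ≤ M := by
    refine le_trans ?_ hZ
    rw [mul_comm]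
    refine card_le_mul_card_image _ _ fun z hz => ?_
    obtain ⟨⟨x, x'⟩, hx, rfl⟩ := mem_image.mp hz
    simp only [BadPairs, mem_filter] at hx
    obtain ⟨h1, h2, h3, -, -⟩ := mem_Pairs hx.1
    have hz0 : x * x' ≠ 0 := Nat.mul_ne_zero (by omega) (by omega)
    have hMN : M ≤ N * b ^ 12 := by
      have : M ≤ M ^ 5 := Nat.le_self_pow (by norm_num) M
      have h2 : N ≤ N * b ^ 12 := Nat.le_mul_of_pos_right _ (by positivity)
      omega
    refine le_trans ?_ (hD _ hz0 (h3.trans hMN))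
    refine card_le_card_of_injOn (fun t => t.1) ?_ ?_
    · rintro ⟨y, y'⟩ hy
      have := (mem_filter.mp hy).2
      simp only at this
      exact Nat.mem_divisors.mpr ⟨⟨y', this.symm⟩, hz0⟩
    · rintro ⟨y, y'⟩ hy ⟨w, w'⟩ hw hh
      have e1 := (mem_filter.mp hy).2
      have e2 := (mem_filter.mp hw).2
      simp only at e1 e2 hh
      subst hh
      have hy0 : 0 < y := Nat.pos_of_ne_zero fun h0 => hz0 (by rw [← e1, h0, zero_mul])
      rw [Nat.eq_of_mul_eq_mul_left hy0 (e1.trans e2.symm)]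
  have hgood := card_good h hN hb hM ((Pairs M (b ^ 30)).filter fun t => ¬ Bad c R (t.1 * t.2))
    (filter_subset _ _) (fun t ht => (mem_filter.mp ht).2)
  have hsub : Pairs M (b ^ 30) ⊆ ((((Pairs M (b ^ 30)).filter fun t => ¬ Bad c R (t.1 * t.2)) ∪
      BadPairs M b c R) ∪ E ×ˢ Icc 1 (M / b ^ 30)) ∪ Icc 1 (M / b ^ 30) ×ˢ E := by
    rintro ⟨x, x'⟩ ht
    obtain ⟨h1, h2, h3, h4, h5⟩ := mem_Pairs ht
    simp only [mem_union, mem_filter, mem_product, BadPairs, mem_Icc]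
    by_cases e1 : x ∈ E
    · exact Or.inl (Or.inr ⟨e1, by omega, (Nat.le_div_iff_mul_le hb30).mpr h5⟩)
    · by_cases e2 : x' ∈ E
      · exact Or.inr ⟨⟨by omega, (Nat.le_div_iff_mul_le hb30).mpr h4⟩, e2⟩
      · by_cases e3 : Bad c R (x * x')
        · exact Or.inl (Or.inl (Or.inr ⟨ht, e1, e2, e3⟩))
        · exact Or.inl (Or.inl (Or.inl ⟨ht, e3⟩))
  have h1 := card_le_card hsub
  have h2 := card_union_le ((((Pairs M (b ^ 30)).filter fun t => ¬ Bad c R (t.1 * t.2)) ∪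
      BadPairs M b c R) ∪ E ×ˢ Icc 1 (M / b ^ 30)) (Icc 1 (M / b ^ 30) ×ˢ E)
  have h3 := card_union_le (((Pairs M (b ^ 30)).filter fun t => ¬ Bad c R (t.1 * t.2)) ∪
      BadPairs M b c R) (E ×ˢ Icc 1 (M / b ^ 30))
  have h4 := card_union_le ((Pairs M (b ^ 30)).filter fun t => ¬ Bad c R (t.1 * t.2))
      (BadPairs M b c R)
  rw [card_product, Nat.card_Icc, Nat.add_sub_cancel] at h2 h3
  rw [mul_comm (M / b ^ 30)] at h2
  omega

end Pool.Agent.Work.MP_3e8641_co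
end

-- merged part: Pool.Agent.Work.MP_3e8641_co.Main
section
namespace Pool.Agent.Work.MP_3e8641_co

open Finset

/-- Divisor bound (proof taken from the team library `Lib/ANT/DivisorBound`). -/
theorem exists_card_divisors_le (ε : ℝ) (hε : 0 < ε) :
    ∃ C : ℝ, 1 ≤ C ∧ ∀ n : ℕ, (n.divisors.card : ℝ) ≤ C * (n : ℝ) ^ ε := by
  have hl2 : (0.69 : ℝ) < Real.log 2 := by have := Real.log_two_gt_d9; linarith only [this]
  set B : ℝ := 1 + 1 / (ε * Real.log 2) with hB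
  have hB0 : 0 < 1 / (ε * Real.log 2) := by positivity
  have hB1 : 1 ≤ B := by linarith only [hB0]
  set K : ℕ := ⌈(2 : ℝ) ^ (1 / ε)⌉₊ with hK
  refine ⟨B ^ K, one_le_pow₀ hB1, fun n => ?_⟩
  rcases Nat.eq_zero_or_pos n with rfl | hn
  · simp only [Nat.divisors_zero, Finset.card_empty, Nat.cast_zero]; positivity
  have h1 : (n : ℝ) ^ ε = ∏ p ∈ n.primeFactors, ((p : ℝ) ^ n.factorization p) ^ ε := by
    rw [Real.finsetProd_rpow _ _ (fun p _ => by positivity)]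
    congr 1
    conv_lhs => rw [← Nat.prod_factorization_pow_eq_self hn.ne']
    rw [Finsupp.prod, Nat.support_factorization]
    push_cast
    rfl
  have h2 : ∏ p ∈ n.primeFactors, (if p < K then B else 1) ≤ B ^ K := by
    rw [Finset.prod_ite, Finset.prod_const_one, mul_one, Finset.prod_const]
    refine pow_le_pow_right₀ hB1 ?_
    calc _ ≤ (range K).card := Finset.card_le_card fun p hp =>
          Finset.mem_range.mpr (Finset.mem_filter.mp hp).2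
      _ = K := Finset.card_range K
  rw [Nat.card_divisors hn.ne', h1]
  refine le_trans ?_ (mul_le_mul_of_nonneg_right h2 (Finset.prod_nonneg fun p _ => by positivity))
  rw [← Finset.prod_mul_distrib]
  push_cast
  refine Finset.prod_le_prod (fun p _ => by positivity) fun p hp => ?_
  set a := n.factorization p
  have hp2 : (2 : ℝ) ≤ p := by exact_mod_cast (Nat.prime_of_mem_primeFactors hp).two_le
  split_ifs with h
  · have e1 : (2 : ℝ) ^ (a * ε) ≤ ((p : ℝ) ^ a) ^ ε := by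
      rw [Real.rpow_mul (by norm_num), Real.rpow_natCast]
      gcongr
    have e2 : 1 + a * ε * Real.log 2 ≤ (2 : ℝ) ^ (a * ε) := by
      rw [Real.rpow_def_of_pos (by norm_num)]
      have := Real.add_one_le_exp (Real.log 2 * (a * ε))
      linarith only [this]
    have e3 : (a : ℝ) + 1 ≤ B * (1 + a * ε * Real.log 2) := by
      have : B * (1 + a * ε * Real.log 2) =
          1 + 1 / (ε * Real.log 2) + a * ε * Real.log 2 + a := by
        rw [hB]; field_simp; ring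
      rw [this]
      have : 0 ≤ a * ε * Real.log 2 := by positivity
      linarith only [hB0, this]
    exact e3.trans (mul_le_mul_of_nonneg_left (e2.trans e1) (by linarith only [hB0]))
  · have e1 : (2 : ℝ) ^ (1 / ε) ≤ p := (Nat.le_ceil _).trans (by exact_mod_cast not_lt.mp h)
    have e2 : (2 : ℝ) ≤ (p : ℝ) ^ ε := by
      calc (2 : ℝ) = ((2 : ℝ) ^ (1 / ε)) ^ ε := by
            rw [← Real.rpow_mul (by norm_num), one_div_mul_cancel hε.ne', Real.rpow_one]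
        _ ≤ (p : ℝ) ^ ε := by gcongr
    rw [one_mul, ← Real.rpow_natCast, ← Real.rpow_mul (by linarith only [hp2]), mul_comm,
      Real.rpow_mul (by linarith only [hp2]), Real.rpow_natCast]
    have e3 : (a : ℝ) + 1 ≤ 2 ^ a := by exact_mod_cast Nat.lt_two_pow_self
    exact e3.trans (by gcongr)

lemma card_Pairs (M B : ℕ) (hB : 1 ≤ B) (hM : B * B ≤ M) :
    (M : ℝ) * (Real.log M - 2 * Real.log B - 2) ≤ (Pairs M B).card := by
  have hB0 : 0 < B := hB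
  have hBn : B ≤ M / B := (Nat.le_div_iff_mul_le hB0).mpr hM
  have hM1 : 1 ≤ M := le_trans (Nat.mul_pos hB hB) hM
  have hsub : (Icc B (M / B)).biUnion (fun x => (Icc B (M / x)).image fun y => (x, y)) ⊆
      Pairs M B := by
    intro t ht
    simp only [mem_biUnion, mem_image, mem_Icc] at ht
    obtain ⟨x, ⟨hx1, hx2⟩, y, ⟨hy1, hy2⟩, rfl⟩ := ht
    simp only [Pairs, mem_filter, mem_product, mem_Icc]
    refine ⟨⟨⟨hx1, hx2.trans (Nat.div_le_self _ _)⟩, hy1, hy2.trans (Nat.div_le_self _ _)⟩, ?_⟩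
    rw [mul_comm]
    exact (Nat.le_div_iff_mul_le (by omega)).mp hy2
  have h1 := card_le_card hsub
  rw [card_biUnion (by
    intro x _ x' _ hne
    rw [Function.onFun, Finset.disjoint_left]
    intro t h1 h2
    simp only [mem_image] at h1 h2
    obtain ⟨y, -, rfl⟩ := h1
    obtain ⟨y', -, h⟩ := h2
    exact hne (congrArg Prod.fst h).symm)] at h1
  have h2 : ∀ x ∈ Icc B (M / B), (M : ℝ) * (x : ℝ)⁻¹ - B ≤
      (((Icc B (M / x)).image fun y => (x, y)).card : ℝ) := by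
    intro x hx
    rw [mem_Icc] at hx
    have hx0 : 0 < x := by omega
    rw [card_image_of_injective _ (fun y y' h => congrArg Prod.snd h), Nat.card_Icc]
    have e1 : B ≤ M / x := by
      rw [Nat.le_div_iff_mul_le hx0, mul_comm]
      exact (Nat.le_div_iff_mul_le hB0).mp hx.2
    rw [Nat.cast_sub (by omega)]
    have e2 : M < x * (M / x + 1) := Nat.lt_mul_div_succ _ hx0
    have e3 : (M : ℝ) < x * ((M / x + 1 : ℕ) : ℝ) := by exact_mod_cast e2
    have hx0' : (0 : ℝ) < x := by exact_mod_cast hx0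
    have e4 : (M : ℝ) * (x : ℝ)⁻¹ ≤ ((M / x + 1 : ℕ) : ℝ) := by
      rw [← div_eq_mul_inv, div_le_iff₀ hx0']; linarith only [e3]
    linarith only [e4]
  have h3 := Finset.sum_le_sum h2
  have h1' : ∑ x ∈ Icc B (M / B), (((Icc B (M / x)).image fun y => (x, y)).card : ℝ) ≤
      (Pairs M B).card := by exact_mod_cast h1
  rw [Finset.sum_sub_distrib, ← Finset.mul_sum, sum_const, Nat.card_Icc, nsmul_eq_mul] at h3
  have h4 : ((M / B + 1 - B : ℕ) : ℝ) * B ≤ M := by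
    have : (M / B + 1 - B) * B ≤ M :=
      le_trans (Nat.mul_le_mul_right _ (by omega)) (Nat.div_mul_le_self M B)
    exact_mod_cast this
  have h5 : Real.log M - 2 * Real.log B - 1 ≤ ∑ x ∈ Icc B (M / B), (x : ℝ)⁻¹ := by
    have e1 := log_add_one_le_harmonic (M / B)
    have e2 := harmonic_le_one_add_log B
    rw [harmonic_eq_sum_Icc] at e1 e2
    push_cast at e1 e2
    have e3 : ∑ x ∈ Icc 1 (M / B), (x : ℝ)⁻¹ ≤
        ∑ x ∈ Icc 1 B, (x : ℝ)⁻¹ + ∑ x ∈ Icc B (M / B), (x : ℝ)⁻¹ := by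
      rw [← Finset.sum_union_inter]
      have : Icc 1 B ∪ Icc B (M / B) = Icc 1 (M / B) := by
        ext x; simp only [mem_union, mem_Icc]; omega
      rw [this]
      have : 0 ≤ ∑ x ∈ Icc 1 B ∩ Icc B (M / B), (x : ℝ)⁻¹ := by positivity
      linarith only [this]
    have hB' : (0 : ℝ) < B := by exact_mod_cast hB0
    have hM' : (0 : ℝ) < M := by exact_mod_cast hM1
    have e4 : Real.log M - Real.log B ≤ Real.log (((M / B : ℕ) : ℝ) + 1) := by
      rw [← Real.log_div hM'.ne' hB'.ne']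
      refine Real.log_le_log (by positivity) ?_
      rw [div_le_iff₀ hB']
      have : M < B * (M / B + 1) := Nat.lt_mul_div_succ _ hB0
      have : (M : ℝ) < B * (((M / B : ℕ) : ℝ) + 1) := by exact_mod_cast this
      linarith only [this]
    linarith only [e1, e2, e3, e4]
  have h6 := mul_le_mul_of_nonneg_left h5 (Nat.cast_nonneg (α := ℝ) M)
  linarith only [h3, h1', h4, h6]

lemma core' : ∃ L : ℕ, 1 ≤ L ∧ ∀ (N M b : ℕ) (c : ℕ → Fin 3), 16 * M ^ 5 ≤ N → L ≤ b →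
    b ^ 60 ≤ M → (∀ n, n ≠ 0 → n ≤ N * b ^ 12 → n.divisors.card ≤ b) →
    (Sol N c).card ≤ M * b → (Pairs M (b ^ 30)).card ≤ (Sol N c).card + 3 * M :=
  ⟨2 ^ 730, Nat.one_le_two_pow, core⟩

/-- Lower bound in terms of `M`. -/
lemma bound_M (η : ℝ) (hη : 0 < η) : ∃ M₀ : ℕ, ∀ M ≥ M₀, ∀ N : ℕ, 16 * M ^ 5 ≤ N →
    N ≤ 16 * (M + 1) ^ 5 → ∀ c : ℕ → Fin 3,
    (M : ℝ) * ((1 - η) * Real.log M - 5) ≤ (Sol N c).card := by
  obtain ⟨K, hK1, hK2⟩ : ∃ K : ℕ, 60 ≤ K ∧ 60 / η ≤ K :=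
    ⟨max 60 ⌈60 / η⌉₊, le_max_left _ _, (Nat.le_ceil _).trans (by exact_mod_cast le_max_right _ _)⟩
  have hK0 : (0 : ℝ) < K := by exact_mod_cast (show 0 < K by omega)
  obtain ⟨C, hC1, hC⟩ := exists_card_divisors_le (1 / (14 * K)) (by positivity)
  have htend : Filter.Tendsto (fun M : ℕ => (M : ℝ) ^ (1 / (2 * K : ℝ))) Filter.atTop Filter.atTop :=
    (tendsto_rpow_atTop (by positivity)).comp tendsto_natCast_atTop_atTop
  obtain ⟨L, hL1, hcore⟩ := core'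
  obtain ⟨M₀, hM₀⟩ := Filter.eventually_atTop.mp
    ((htend.eventually_ge_atTop (L + C + 2 * K + 1)).and (Filter.eventually_ge_atTop 512))
  refine ⟨M₀, fun M hM N hN1 hN2 c => ?_⟩
  obtain ⟨hw, hM512⟩ := hM₀ M hM
  generalize hwdef : (M : ℝ) ^ (1 / (2 * K : ℝ)) = w at hw
  have hMR : (512 : ℝ) ≤ M := by exact_mod_cast hM512
  have hM0 : (0 : ℝ) < M := by linarith only [hMR]
  have hL0 : (0 : ℝ) < L := by exact_mod_cast hL1
  have hw1 : 1 ≤ w := by linarith only [hK0, hC1, hw, hL0]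
  have hw0 : 0 < w := by linarith only [hK0, hC1, hw, hL0]
  have hwM : w ^ (2 * K) = M := by
    rw [← hwdef, ← Real.rpow_natCast, ← Real.rpow_mul hM0.le]
    push_cast
    rw [one_div_mul_cancel (by positivity), Real.rpow_one]
  have hlogM : Real.log M = 2 * K * Real.log w := by
    rw [← hwM, Real.log_pow]; push_cast; ring
  obtain ⟨b, hbdef⟩ : ∃ b : ℕ, b = ⌊w ^ 2⌋₊ := ⟨_, rfl⟩
  have hb1 : (b : ℝ) ≤ w ^ 2 := hbdef ▸ Nat.floor_le (by positivity)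
  have hb2 : w ^ 2 - 1 ≤ b := by have := Nat.lt_floor_add_one (w ^ 2); rw [hbdef]; linarith only [this]
  have hlow : ∀ a : ℝ, 0 ≤ a → a + 1 ≤ w → a * w ≤ b := by
    intro a h0 h1
    have : (a + 1) * w ≤ w * w := mul_le_mul_of_nonneg_right h1 hw0.le
    linarith only [hK0, hC1, hw, hL0, hb2, this]
  have hb730 : L ≤ b := by
    have h1 := hlow L hL0.le (by linarith only [hK0, hC1, hw])
    have h2 : (L : ℝ) ≤ L * w := le_mul_of_one_le_right hL0.le hw1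
    have h3 : (L : ℝ) ≤ b := by linarith only [h1, h2]
    exact_mod_cast h3
  have hbpos : 1 ≤ b := le_trans hL1 hb730
  have hb60 : b ^ 60 ≤ M := by
    have : (b : ℝ) ^ 60 ≤ M := by
      calc (b : ℝ) ^ 60 ≤ (w ^ 2) ^ 60 := by gcongr
        _ = w ^ 120 := by ring
        _ ≤ w ^ (2 * K) := pow_le_pow_right₀ hw1 (by omega)
        _ = M := hwM
    exact_mod_cast this
  have hD : ∀ n, n ≠ 0 → n ≤ N * b ^ 12 → n.divisors.card ≤ b := by
    intro n _ hn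
    have e1 : b ^ 12 ≤ M := (Nat.pow_le_pow_right hbpos (by norm_num)).trans hb60
    have e2 : n ≤ M ^ 7 := by
      calc n ≤ 16 * (M + 1) ^ 5 * M := hn.trans (Nat.mul_le_mul hN2 e1)
        _ ≤ 16 * (2 * M) ^ 5 * M := by gcongr; omega
        _ = 512 * M ^ 6 := by ring
        _ ≤ M * M ^ 6 := Nat.mul_le_mul_right _ hM512
        _ = M ^ 7 := by ring
    have e3 : (n : ℝ) ≤ (M : ℝ) ^ 7 := by exact_mod_cast e2
    have e4 : (n : ℝ) ^ (1 / (14 * K : ℝ)) ≤ w := by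
      calc (n : ℝ) ^ (1 / (14 * K : ℝ)) ≤ ((M : ℝ) ^ 7) ^ (1 / (14 * K : ℝ)) := by gcongr
        _ = w := by
          rw [← hwdef, ← Real.rpow_natCast, ← Real.rpow_mul hM0.le]
          congr 1
          push_cast
          field_simp
          norm_num
    have e5 := hlow C (by linarith only [hC1]) (by linarith only [hK0, hw, hL0])
    have e6 : (n.divisors.card : ℝ) ≤ b :=
      (hC n).trans ((mul_le_mul_of_nonneg_left e4 (by linarith only [hC1])).trans e5)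
    exact_mod_cast e6
  have hlogw : Real.log w ≤ w := (Real.log_le_sub_one_of_pos hw0).trans (by linarith only [])
  have hlogw0 : 0 ≤ Real.log w := Real.log_nonneg hw1
  have hlogMb : Real.log M ≤ b := by
    have e1 := hlow (2 * K) (by positivity) (by linarith only [hC1, hw, hL0])
    rw [hlogM]
    exact (mul_le_mul_of_nonneg_left hlogw (by positivity)).trans e1
  have hlogM0 : 0 ≤ Real.log M := Real.log_nonneg (by linarith only [hMR])
  by_cases hS : (Sol N c).card ≤ M * b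
  · have h1 := hcore N M b c hN1 hb730 hb60 hD hS
    have h2 := card_Pairs M (b ^ 30) (Nat.one_le_pow _ _ hbpos) (by rw [← pow_add]; exact hb60)
    have h3 : ((Pairs M (b ^ 30)).card : ℝ) ≤ (Sol N c).card + 3 * M := by exact_mod_cast h1
    have h4 : 2 * Real.log ((b ^ 30 : ℕ) : ℝ) ≤ η * Real.log M := by
      have hb0 : (0 : ℝ) < b := by exact_mod_cast hbpos
      have e1 : Real.log b ≤ 2 * Real.log w := by
        have := Real.log_le_log hb0 hb1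
        rw [Real.log_pow] at this
        exact_mod_cast this
      rw [Nat.cast_pow, Real.log_pow, hlogM]
      rw [div_le_iff₀ hη] at hK2
      push_cast
      linarith only [e1, hK2, hlogw0, mul_nonneg_of_nonpos_of_nonpos (Mathlib.Tactic.Linarith.sub_nonpos_of_le hK2) (Mathlib.Tactic.Linarith.sub_nonpos_of_le hlogw0)]
    have h5 := mul_le_mul_of_nonneg_left h4 hM0.le
    linarith only [h2, h3, h5]
  · push Not at hS
    have h1 : (M : ℝ) * b ≤ (Sol N c).card := by exact_mod_cast hS.le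
    have h2 : (1 - η) * Real.log M - 5 ≤ b := by linarith only [hlogMb, hη, hlogM0, mul_nonneg_of_nonpos_of_nonpos (le_of_lt (Mathlib.Tactic.Linarith.sub_neg_of_lt hη)) (Mathlib.Tactic.Linarith.sub_nonpos_of_le hlogM0)]
    exact (mul_le_mul_of_nonneg_left h2 hM0.le).trans h1

theorem main (ε : ℝ) (hε : 0 < ε) : ∃ N₀ : ℕ, ∀ N ≥ N₀, ∀ c : ℕ → Fin 3,
    (1 / (5 * (2 : ℝ) ^ (4 / 5 : ℝ)) - ε) * (N : ℝ) ^ (1 / 5 : ℝ) * Real.log N ≤
      (Sol N c).card := by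
  obtain ⟨η, hη0, hη1, hηε⟩ : ∃ η : ℝ, 0 < η ∧ η ≤ 1 ∧ η ≤ ε :=
    ⟨min 1 ε, lt_min one_pos hε, min_le_left _ _, min_le_right _ _⟩
  obtain ⟨M₀, hM₀⟩ := bound_M η hη0
  have ht1 : Filter.Tendsto (fun N : ℕ => (N : ℝ) ^ (1 / 5 : ℝ)) Filter.atTop Filter.atTop :=
    (tendsto_rpow_atTop (by norm_num)).comp tendsto_natCast_atTop_atTop
  have ht2 : Filter.Tendsto (fun N : ℕ => Real.log N) Filter.atTop Filter.atTop :=
    Real.tendsto_log_atTop.comp tendsto_natCast_atTop_atTop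
  obtain ⟨N₀, hN₀⟩ := Filter.eventually_atTop.mp
    ((ht1.eventually_ge_atTop (2 * M₀ + 4 + 1 / ε)).and (ht2.eventually_ge_atTop (40 / η)))
  refine ⟨N₀, fun N hN c => ?_⟩
  obtain ⟨hx, hl⟩ := hN₀ N hN
  have hx5 : ((N : ℝ) ^ (1 / 5 : ℝ)) ^ 5 = N := by
    rw [← Real.rpow_natCast, ← Real.rpow_mul (Nat.cast_nonneg _)]; norm_num
  have hk5 : ((2 : ℝ) ^ (4 / 5 : ℝ)) ^ 5 = 16 := by
    rw [← Real.rpow_natCast, ← Real.rpow_mul (by norm_num)]; norm_num
  have hk1 : 1 ≤ (2 : ℝ) ^ (4 / 5 : ℝ) := Real.one_le_rpow (by norm_num) (by norm_num)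
  have hk2 : (2 : ℝ) ^ (4 / 5 : ℝ) ≤ 2 := by
    calc (2 : ℝ) ^ (4 / 5 : ℝ) ≤ (2 : ℝ) ^ (1 : ℝ) :=
          Real.rpow_le_rpow_of_exponent_le (by norm_num) (by norm_num)
      _ = 2 := Real.rpow_one 2
  generalize (2 : ℝ) ^ (4 / 5 : ℝ) = κ at *
  generalize (N : ℝ) ^ (1 / 5 : ℝ) = x at *
  have hε1 : 0 < 1 / ε := by positivity
  have hM₀0 : (0 : ℝ) ≤ M₀ := Nat.cast_nonneg _
  have hx0 : 0 < x := by linarith only [hx, hε1]
  have hκ0 : 0 < κ := by linarith only [hk1]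
  obtain ⟨a, ha⟩ : ∃ a : ℝ, a = x / κ := ⟨_, rfl⟩
  have hax : a * κ = x := by rw [ha]; field_simp
  have ha0 : 0 < a := by rw [ha]; positivity
  have ha1 : a ≤ x := by linarith only [hax, hk1, ha0, mul_nonneg_of_nonpos_of_nonpos (Mathlib.Tactic.Linarith.sub_nonpos_of_le hk1) (le_of_lt (Mathlib.Tactic.Linarith.sub_neg_of_lt ha0))]
  have ha2 : x ≤ 2 * a := by (refine le_of_not_gt fun h_nl => ?_; linarith only [h_nl, hk2, hax, hk1, hx, hε1, mul_nonneg_of_nonpos_of_nonpos (Mathlib.Tactic.Linarith.sub_nonpos_of_le (Mathlib.Tactic.Linarith.natCast_nonneg ℝ M₀)) (Mathlib.Tactic.Linarith.sub_nonpos_of_le hk2), mul_nonneg_of_nonpos_of_nonpos (Mathlib.Tactic.Linarith.sub_nonpos_of_le hk1) (le_of_lt (Mathlib.Tactic.Linarith.sub_neg_of_lt h_nl)), mul_nonneg_of_nonpos_of_nonpos (Mathlib.Tactic.Linarith.sub_nonpos_of_le hk2) (Mathlib.Tactic.Linarith.sub_nonpos_of_le hx), mul_nonneg_of_nonpos_of_nonpos (Mathlib.Tactic.Linarith.sub_nonpos_of_le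 hk2) (le_of_lt (Mathlib.Tactic.Linarith.sub_neg_of_lt hε1))])
  have ha5 : 16 * a ^ 5 = N := by rw [← hx5, ← hax, mul_pow, hk5]; ring
  obtain ⟨M, hMdef⟩ : ∃ M : ℕ, M = ⌊a⌋₊ := ⟨_, rfl⟩
  have hM1 : (M : ℝ) ≤ a := hMdef ▸ Nat.floor_le ha0.le
  have hM2 : a ≤ M + 1 := by have := Nat.lt_floor_add_one a; rw [hMdef]; linarith only [this]
  have hMM₀ : M₀ ≤ M := by
    have : (M₀ : ℝ) ≤ M := by linarith only [hx, hε1, ha2, hM2]
    exact_mod_cast this
  have hN1 : 16 * M ^ 5 ≤ N := by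
    have : 16 * (M : ℝ) ^ 5 ≤ N := by rw [← ha5]; gcongr
    exact_mod_cast this
  have hN2 : N ≤ 16 * (M + 1) ^ 5 := by
    have : (N : ℝ) ≤ 16 * ((M : ℝ) + 1) ^ 5 := by rw [← ha5]; gcongr
    exact_mod_cast this
  refine le_trans ?_ (hM₀ M hMM₀ N hN1 hN2 c)
  have hlx : Real.log N = 5 * Real.log x := by rw [← hx5, Real.log_pow]; norm_num
  have hMx : x / 4 ≤ M := by linarith only [hx, hε1, ha2, hM2]
  have hlogM : Real.log x - 2 ≤ Real.log M := by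
    have e1 := Real.log_le_log (by positivity) hMx
    rw [Real.log_div hx0.ne' (by norm_num)] at e1
    have e2 : Real.log 4 ≤ 2 := by
      have : Real.log 4 = 2 * Real.log 2 := by
        rw [show (4 : ℝ) = 2 ^ 2 by norm_num, Real.log_pow]; norm_num
      have := Real.log_two_lt_d9
      linarith
    linarith only [e1, e2]
  generalize Real.log (N : ℝ) = l at *
  rw [div_le_iff₀ hη0] at hl
  have hl0 : 0 < l := by (refine lt_of_not_ge fun h_nl => ?_; linarith only [h_nl, hl, hη0, mul_nonneg_of_nonpos_of_nonpos (le_of_lt (Mathlib.Tactic.Linarith.sub_neg_of_lt hη0)) (Mathlib.Tactic.Linarith.sub_nonpos_of_le h_nl)])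
  have e0 : (1 / (5 * κ) - ε) * x * l = a * (l / 5) - ε * x * l := by
    rw [ha]; field_simp
  rw [e0]
  have e1 : (1 - η) * (l / 5) - 7 ≤ (1 - η) * Real.log M - 5 := by
    have : (1 - η) * (Real.log x - 2) ≤ (1 - η) * Real.log M :=
      mul_le_mul_of_nonneg_left hlogM (by linarith only [hη1])
    rw [hlx]; linarith only [hη0, this]
  have hMR : (0 : ℝ) ≤ M := Nat.cast_nonneg _
  have e2 := mul_le_mul_of_nonneg_left e1 hMR
  refine le_trans ?_ e2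
  have e3 : 1 ≤ ε * x := by
    have : 1 / ε ≤ x := by linarith only [hx]
    rw [div_le_iff₀ hε] at this; linarith only [this]
  have e4 : (a - 1) * (l / 5) ≤ M * (l / 5) := mul_le_mul_of_nonneg_right (by linarith only [hM2]) (by linarith only [hl0])
  have e5 : M * (η * (l / 5) + 7) ≤ x * (η * (l / 5) + 7) :=
    mul_le_mul_of_nonneg_right (by linarith only [ha1, hM1]) (by positivity)
  have e6 : η * (l / 5) + 7 ≤ ε * l * (2 / 5) := by (refine le_of_not_gt fun h_nl => ?_; linarith only [h_nl, hε, hηε, hl, hη0, mul_nonneg_of_nonpos_of_nonpos (le_of_lt (Mathlib.Tactic.Linarith.sub_neg_of_lt hε)) (Mathlib.Tactic.Linarith.sub_nonpos_of_le hl), mul_pos_of_neg_of_neg (Mathlib.Tactic.Linarith.sub_neg_of_lt hη0) (Mathlib.Tactic.Linarith.sub_neg_of_lt h_nl), mul_nonneg_of_nonpos_of_nonpos (Mathlib.Tactic.Linarith.sub_nonpos_of_le hηε) (Mathlib.Tactic.Linarith.sub_nonpos_of_le hl)])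
  have e7 := mul_le_mul_of_nonneg_left e6 hx0.le
  have e8 : l ≤ ε * x * l := le_mul_of_one_le_left hl0.le e3
  linarith only [hl0, e4, e5, e7, e8]

end Pool.Agent.Work.MP_3e8641_co
end
end
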